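import Mathlib

open Set Filter Topology
open scoped Manifold ContDiff

set_option linter.unusedSectionVars false

namespace TorusFlow

/-- The 2-torus. -/
abbrev T2 := Circle × Circle

lemma ai (f : Equiv.Perm T2) (x : T2) : f (f⁻¹ x) = x := Equiv.apply_symm_apply f x
lemma ia (f : Equiv.Perm T2) (x : T2) : f⁻¹ (f x) = x := Equiv.symm_apply_apply f x

/-- Shears. -/
noncomputable def shS (K a : ℝ) (p : T2) : T2 :=
  (p.1 * Circle.exp (a * (K * (p.2 : ℂ).im)), p.2)

/-- Shears. -/
noncomputable def shR (K b : ℝ) (p : T2) : T2 :=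
  (p.1, p.2 * Circle.exp (b * (K * (p.1 : ℂ).im)))

lemma shS_add (K a a' : ℝ) (p : T2) : shS K a (shS K a' p) = shS K (a + a') p := by
  simp only [shS, add_mul, Circle.exp_add]
  ext1
  · simp only
    rw [mul_assoc, mul_comm (Circle.exp (a' * _))]
  · rfl

lemma shR_add (K a a' : ℝ) (p : T2) : shR K a (shR K a' p) = shR K (a + a') p := by
  simp only [shR, add_mul, Circle.exp_add]
  ext1
  · rfl
  · simp only
    rw [mul_assoc, mul_comm (Circle.exp (a' * _))]

lemma shS_zero (K : ℝ) (p : T2) : shS K 0 p = p := by simp [shS]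
lemma shR_zero (K : ℝ) (p : T2) : shR K 0 p = p := by simp [shR]

/-- The shears as permutations. -/
noncomputable def Sp (K a : ℝ) : Equiv.Perm T2 where
  toFun := shS K a
  invFun := shS K (-a)
  left_inv p := by rw [shS_add, neg_add_cancel, shS_zero]
  right_inv p := by rw [shS_add, add_neg_cancel, shS_zero]

/-- The shears as permutations. -/
noncomputable def Rp (K a : ℝ) : Equiv.Perm T2 where
  toFun := shR K a
  invFun := shR K (-a)
  left_inv p := by rw [shR_add, neg_add_cancel, shR_zero]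
  right_inv p := by rw [shR_add, add_neg_cancel, shR_zero]

lemma Sp_zero (K : ℝ) : Sp K 0 = 1 := by ext1 p; exact shS_zero K p
lemma Rp_zero (K : ℝ) : Rp K 0 = 1 := by ext1 p; exact shR_zero K p

/-- The time-one map. -/
noncomputable def Fp (K : ℝ) : Equiv.Perm T2 := Rp K 1 * Sp K 1

/-- First switch function. -/
noncomputable def aa (s : ℝ) : ℝ := Real.smoothTransition (4 * s - 1)
/-- Second switch function. -/
noncomputable def bb (s : ℝ) : ℝ := Real.smoothTransition (4 * s - 2)

/-- The isotopy from the identity to the time-one map. -/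
noncomputable def Qp (K s : ℝ) : Equiv.Perm T2 := Rp K (bb s) * Sp K (aa s)

lemma Qp_low (K : ℝ) {s : ℝ} (hs : s ≤ 1 / 4) : Qp K s = 1 := by
  have h1 : aa s = 0 := Real.smoothTransition.zero_of_nonpos (by linarith)
  have h2 : bb s = 0 := Real.smoothTransition.zero_of_nonpos (by linarith)
  rw [Qp, h1, h2, Sp_zero, Rp_zero, one_mul]

lemma Qp_high (K : ℝ) {s : ℝ} (hs : 3 / 4 ≤ s) : Qp K s = Fp K := by
  have h1 : aa s = 1 := Real.smoothTransition.one_of_one_le (by linarith)
  have h2 : bb s = 1 := Real.smoothTransition.one_of_one_le (by linarith)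
  rw [Qp, h1, h2, Fp]

/-- The evolution from time `0` to time `u`. -/
noncomputable def Pp (K u : ℝ) : Equiv.Perm T2 := Qp K (u - ⌊u⌋) * (Fp K) ^ ⌊u⌋

lemma Pp_local (K : ℝ) (n : ℤ) {u : ℝ} (h1 : (n : ℝ) - 1 / 4 < u) (h2 : u < n + 5 / 4) :
    Pp K u = Qp K (u - n) * (Fp K) ^ n := by
  rcases lt_trichotomy ⌊u⌋ n with h | h | h
  · -- floor = n - 1
    have h3 : ⌊u⌋ = n - 1 := by
      have : (n : ℝ) - 1 < u := by linarith
      have h4 : n - 1 ≤ ⌊u⌋ := by
        rw [Int.le_floor]; push_cast; linarith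
      omega
    rw [Pp, h3, Qp_high K (by push_cast; linarith), Qp_low K (by
      have : u < n := by
        have := Int.lt_floor_add_one u
        rw [h3] at this
        push_cast at this
        linarith
      linarith), one_mul, ← zpow_one_add]
    congr 1
    ring
  · rw [Pp, h]
  · have h3 : ⌊u⌋ = n + 1 := by
      have h4 : ⌊u⌋ < n + 2 := by
        rw [Int.floor_lt]; push_cast; linarith
      omega
    have h5 : ((n : ℝ) + 1) ≤ u := by
      have := Int.floor_le u
      rw [h3] at this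
      push_cast at this
      linarith
    rw [Pp, h3, Qp_low K (by push_cast; linarith), Qp_high K (by linarith), one_mul,
      ← zpow_one_add]
    congr 1
    ring

lemma Pp_add_int (K u : ℝ) (m : ℤ) : Pp K (u + m) = Pp K u * (Fp K) ^ m := by
  rw [Pp, Pp, Int.floor_add_intCast, zpow_add, ← mul_assoc]
  congr 3
  push_cast
  ring

lemma Pp_zero (K : ℝ) : Pp K 0 = 1 := by
  rw [Pp]; simp [Qp_low]

lemma Pp_one (K : ℝ) : Pp K 1 = Fp K := by
  have := Pp_add_int K 0 1
  rw [Pp_zero] at this
  simpa using this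

/-- The lift of a point of the circle. -/
noncomputable def lift1 (θ : Circle) : ℝ := Complex.arg (θ : ℂ) / (2 * Real.pi)
/-- Another lift. -/
noncomputable def lift2 (θ : Circle) : ℝ := Complex.arg (-(θ : ℂ)) / (2 * Real.pi) + 1 / 2

lemma exp_lift1 (θ : Circle) : Circle.exp (2 * Real.pi * lift1 θ) = θ := by
  have : 2 * Real.pi * lift1 θ = Complex.arg (θ : ℂ) := by
    rw [lift1]; field_simp
  rw [this, Circle.exp_arg]

lemma exp_lift2 (θ : Circle) : Circle.exp (2 * Real.pi * lift2 θ) = θ := by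
  have : 2 * Real.pi * lift2 θ = Complex.arg ((-θ : Circle) : ℂ) + Real.pi := by
    rw [lift2]; push_cast; field_simp
  rw [this, Circle.exp_add, Circle.exp_arg]
  ext
  simp [Circle.coe_exp]

/-- The three-dimensional torus. -/
abbrev T3 := Circle × (Circle × Circle)

/-- The flow. -/
noncomputable def flow (K t : ℝ) (x : T3) : T3 :=
  (x.1 * Circle.exp (2 * Real.pi * t), Pp K (lift1 x.1 + t) ((Pp K (lift1 x.1))⁻¹ x.2))

lemma flow_eq (K t : ℝ) (x : T3) (τ : ℝ) (hτ : Circle.exp (2 * Real.pi * τ) = x.1) :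
    flow K t x = (x.1 * Circle.exp (2 * Real.pi * t), Pp K (τ + t) ((Pp K τ)⁻¹ x.2)) := by
  have h1 : Circle.exp (2 * Real.pi * lift1 x.1) = Circle.exp (2 * Real.pi * τ) := by
    rw [exp_lift1, hτ]
  rw [Circle.exp_eq_exp] at h1
  obtain ⟨m, hm⟩ := h1
  have h2 : lift1 x.1 = τ + m := by
    have hpi := Real.pi_pos
    have : 2 * Real.pi * lift1 x.1 = 2 * Real.pi * (τ + m) := by rw [hm]; ring
    exact mul_left_cancel₀ (by positivity) this
  rw [flow, h2]
  have h3 : τ + m + t = (τ + t) + m := by ring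
  rw [h3, Pp_add_int, Pp_add_int, mul_inv_rev, Equiv.Perm.mul_apply, Equiv.Perm.mul_apply,
    ai]

lemma flow_zero (K : ℝ) (x : T3) : flow K 0 x = x := by
  rw [flow]
  simp

lemma flow_add (K s t : ℝ) (x : T3) : flow K (s + t) x = flow K s (flow K t x) := by
  have h1 := flow_eq K t x (lift1 x.1) (exp_lift1 _)
  have h2 := flow_eq K (s + t) x (lift1 x.1) (exp_lift1 _)
  have h3 := flow_eq K s (flow K t x) (lift1 x.1 + t) (by
    rw [h1, mul_add, Circle.exp_add, exp_lift1])
  rw [h3, h2, h1]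
  have e : lift1 x.1 + t + s = lift1 x.1 + (s + t) := by ring
  have e2 : 2 * Real.pi * (s + t) = 2 * Real.pi * t + 2 * Real.pi * s := by ring
  simp only [ia]
  rw [e, e2, Circle.exp_add, ← mul_assoc x.1]

end TorusFlow
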