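import Pool.Agent.Helper98.Flow.Circ

open Set Filter Topology

set_option linter.unusedSectionVars false

namespace TorusFlow

/-- Clamp to `[-1/2, 1/2]`, then arcsine. -/
noncomputable def gg (x : ℝ) : ℝ := Real.arcsin (max (-(1/2)) (min (1/2) x))

lemma sin_one_gt : (1 / 2 : ℝ) < Real.sin 1 := by
  have := Real.sin_gt_sub_cube (x := 1) (by norm_num)
  norm_num at this
  linarith

lemma arcsin_bd {y : ℝ} (h1 : -(1/2) ≤ y) (h2 : y ≤ 1/2) : |Real.arcsin y| ≤ 1 := by
  have hpi := Real.pi_gt_three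
  rw [abs_le]
  constructor
  · rw [Real.le_arcsin_iff_sin_le' ⟨by linarith, by linarith⟩, Real.sin_neg]
    linarith [sin_one_gt]
  · rw [Real.arcsin_le_iff_le_sin' ⟨by linarith, by linarith⟩]
    linarith [sin_one_gt]

lemma sin_mono_aux {a b : ℝ} (ha : -1 ≤ a) (hab : a ≤ b) (hb : b ≤ 1) :
    b - a ≤ 2 * (Real.sin b - Real.sin a) := by
  have h : MonotoneOn (fun x : ℝ => Real.sin x - x / 2) (Icc (-1) 1) := by
    apply monotoneOn_of_deriv_nonneg (convex_Icc _ _)
    · fun_prop
    · fun_prop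
    · intro x hx
      rw [interior_Icc] at hx
      have h1 : deriv (fun x : ℝ => Real.sin x - x / 2) x = Real.cos x - 1 / 2 := by
        have : HasDerivAt (fun x : ℝ => Real.sin x - x / 2) (Real.cos x - 1 / 2) x :=
          (Real.hasDerivAt_sin x).sub ((hasDerivAt_id x).div_const 2)
        exact this.deriv
      rw [h1]
      have h2 := Real.one_sub_sq_div_two_le_cos (x := x)
      have h3 : x ^ 2 ≤ 1 := by nlinarith [hx.1, hx.2]
      linarith
  have := h ⟨ha, hab.trans hb⟩ ⟨ha.trans hab, hb⟩ hab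
  simp only at this
  linarith

lemma sin_lower {a b : ℝ} (ha : |a| ≤ 1) (hb : |b| ≤ 1) :
    |a - b| ≤ 2 * |Real.sin a - Real.sin b| := by
  rw [abs_le] at ha hb
  rcases le_total a b with h | h
  · have := sin_mono_aux ha.1 h hb.2
    rw [abs_sub_comm, abs_of_nonneg (by linarith), abs_sub_comm]
    exact this.trans (by gcongr; exact le_abs_self _)
  · have := sin_mono_aux hb.1 h ha.2
    rw [abs_of_nonneg (by linarith)]
    exact this.trans (by gcongr; exact le_abs_self _)

lemma gg_bd (x : ℝ) : |gg x| ≤ 1 := by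
  apply arcsin_bd
  · exact le_max_left _ _
  · exact max_le (by norm_num) (min_le_left _ _)

lemma sin_gg (x : ℝ) : Real.sin (gg x) = max (-(1/2)) (min (1/2) x) := by
  rw [gg, Real.sin_arcsin]
  · exact le_trans (by norm_num) (le_max_left _ _)
  · exact le_trans (max_le (by norm_num) (min_le_left _ _)) (by norm_num : (1/2 : ℝ) ≤ 1)

lemma gg_lip (x y : ℝ) : |gg x - gg y| ≤ 2 * |x - y| := by
  refine (sin_lower (gg_bd x) (gg_bd y)).trans ?_
  rw [sin_gg, sin_gg]
  refine mul_le_mul_of_nonneg_left ?_ (by norm_num)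
  have h2 := abs_max_sub_max_le_max (-(1/2) : ℝ) (min (1/2) x) (-(1/2)) (min (1/2) y)
  have h3 := abs_min_sub_min_le_max (1/2 : ℝ) x (1/2) y
  rw [sub_self, abs_zero] at h2 h3
  rw [max_eq_right (abs_nonneg (_ : ℝ))] at h3
  exact h2.trans (max_le (abs_nonneg _) h3)

lemma gg_of_sin {v x : ℝ} (hv : |v| ≤ 1) (hx : |x| ≤ 1 / 2) (h : Real.sin v = x) : gg x = v := by
  rw [abs_le] at hv hx
  have h1 : max (-(1/2 : ℝ)) (min (1/2) x) = x := by
    rw [min_eq_right hx.2, max_eq_right hx.1]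
  have hpi := Real.pi_gt_three
  rw [gg, h1, ← h, Real.arcsin_sin (by linarith) (by linarith)]

/-- The equations of an orbit with given winding data. -/
def Sol (K : ℝ) (a : ℤ → ℤ) (z : ℤ → ℝ × ℝ) : Prop :=
  ∀ n, K * Real.sin (z n).2 = (z (n + 1)).1 - (z n).1 + 2 * Real.pi * a n ∧
    K * Real.sin (z (n + 1)).1 = (z (n + 1)).2 - (z n).2

/-- Boundedness. -/
def Bd (z : ℤ → ℝ × ℝ) : Prop := ∀ n, |(z n).1| ≤ 1 ∧ |(z n).2| ≤ 1

/-- The fixed-point operator. -/
noncomputable def Phi (K : ℝ) (a : ℤ → ℤ) (z : ℤ → ℝ × ℝ) (n : ℤ) : ℝ × ℝ :=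
  (gg (((z n).2 - (z (n - 1)).2) / K),
    gg (((z (n + 1)).1 - (z n).1 + 2 * Real.pi * a n) / K))

lemma Phi_bd (K : ℝ) (a : ℤ → ℤ) (z : ℤ → ℝ × ℝ) (n : ℤ) : ‖Phi K a z n‖ ≤ 1 := by
  rw [Prod.norm_def]
  exact max_le (gg_bd _) (gg_bd _)

/-- The fixed-point operator on bounded functions. -/
noncomputable def PhiB (K : ℝ) (a : ℤ → ℤ) (z : BoundedContinuousFunction ℤ (ℝ × ℝ)) :
    BoundedContinuousFunction ℤ (ℝ × ℝ) :=
  BoundedContinuousFunction.ofNormedAddCommGroupDiscrete (Phi K a z) 1 (Phi_bd K a z)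

lemma PhiB_apply (K : ℝ) (a : ℤ → ℤ) (z : BoundedContinuousFunction ℤ (ℝ × ℝ)) (n : ℤ) :
    PhiB K a z n = Phi K a z n := rfl

lemma PhiB_contr {K : ℝ} (hK : 20 ≤ K) (a : ℤ → ℤ) : ContractingWith (1 / 2) (PhiB K a) := by
  refine ⟨by
    rw [← NNReal.coe_lt_coe]; push_cast; norm_num, LipschitzWith.of_dist_le_mul fun z z' => ?_⟩
  rw [BoundedContinuousFunction.dist_le (by positivity)]
  intro n
  rw [PhiB_apply, PhiB_apply, Prod.dist_eq]
  have hK0 : 0 < K := by linarith
  have key : ∀ s s' : ℝ, |s - s'| ≤ 2 * dist z z' →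
      |gg (s / K) - gg (s' / K)| ≤ 1 / 2 * dist z z' := by
    intro s s' h
    refine (gg_lip _ _).trans ?_
    rw [← sub_div, abs_div, abs_of_pos hK0, mul_div_assoc', div_le_iff₀ hK0]
    have := dist_nonneg (x := z) (y := z')
    nlinarith
  have c1 : ∀ m, |(z m).1 - (z' m).1| ≤ dist z z' := fun m => by
    refine le_trans ?_ (BoundedContinuousFunction.dist_coe_le_dist m)
    rw [Prod.dist_eq]
    exact le_max_left _ _
  have c2 : ∀ m, |(z m).2 - (z' m).2| ≤ dist z z' := fun m => by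
    refine le_trans ?_ (BoundedContinuousFunction.dist_coe_le_dist m)
    rw [Prod.dist_eq]
    exact le_max_right _ _
  have e1 : ((1 / 2 : NNReal) : ℝ) = 1 / 2 := by push_cast; rfl
  rw [e1]
  apply max_le
  · apply key
    have h1 := c2 n
    have h2 := c2 (n - 1)
    rw [abs_le] at h1 h2 ⊢
    constructor <;> linarith
  · apply key
    have h1 := c1 (n + 1)
    have h2 := c1 n
    rw [abs_le] at h1 h2 ⊢
    constructor <;> linarith

lemma fixed_iff {K : ℝ} {C : ℝ} (hK : 4 + 4 * Real.pi * C ≤ K) (hK' : 20 ≤ K) {a : ℤ → ℤ}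
    (ha : ∀ n, |(a n : ℝ)| ≤ C) {z : ℤ → ℝ × ℝ} (hz : Bd z) :
    Phi K a z = z ↔ Sol K a z := by
  have hpi := Real.pi_pos
  have hK0 : 0 < K := by linarith
  have b1 : ∀ n, |((z n).2 - (z (n - 1)).2) / K| ≤ 1 / 2 := fun n => by
    rw [abs_div, abs_of_pos hK0, div_le_iff₀ hK0]
    have h1 := (hz n).2
    have h2 := (hz (n - 1)).2
    rw [abs_le] at h1 h2 ⊢
    constructor <;> linarith
  have b2 : ∀ n, |((z (n + 1)).1 - (z n).1 + 2 * Real.pi * a n) / K| ≤ 1 / 2 := fun n => by
    rw [abs_div, abs_of_pos hK0, div_le_iff₀ hK0]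
    have h1 := (hz n).1
    have h2 := (hz (n + 1)).1
    have h3 := ha n
    have h4 : |2 * Real.pi * (a n : ℝ)| ≤ 2 * Real.pi * C := by
      rw [abs_mul, abs_of_pos (by positivity)]
      gcongr
    rw [abs_le] at h1 h2 h4 ⊢
    constructor <;> linarith
  constructor
  · intro h n
    have e1 := congrFun h n
    have e2 := congrFun h (n + 1)
    constructor
    · have h3 : gg (((z (n + 1)).1 - (z n).1 + 2 * Real.pi * a n) / K) = (z n).2 :=
        congrArg Prod.snd e1
      rw [← h3, sin_gg]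
      have := b2 n
      rw [abs_le] at this
      rw [min_eq_right this.2, max_eq_right (by linarith [this.1])]
      field_simp
    · have h3 : gg (((z (n + 1)).2 - (z (n + 1 - 1)).2) / K) = (z (n + 1)).1 :=
        congrArg Prod.fst e2
      rw [← h3, sin_gg]
      have := b1 (n + 1)
      rw [abs_le] at this
      rw [min_eq_right this.2, max_eq_right (by linarith [this.1]), add_sub_cancel_right]
      field_simp
  · intro h
    funext n
    have h1 := (h n).1
    have h2 := (h (n - 1)).2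
    rw [sub_add_cancel] at h2
    rw [Phi]
    ext1
    · apply gg_of_sin (hz n).1 (b1 n)
      rw [← h2]; field_simp
    · apply gg_of_sin (hz n).2 (b2 n)
      rw [← h1]; field_simp

lemma exists_unique_sol {K : ℝ} {C : ℝ} (hK : 4 + 4 * Real.pi * C ≤ K) (hK' : 20 ≤ K)
    {a : ℤ → ℤ} (ha : ∀ n, |(a n : ℝ)| ≤ C) :
    ∃! z : ℤ → ℝ × ℝ, Bd z ∧ Sol K a z := by
  have hc := PhiB_contr hK' a
  set zf := ContractingWith.fixedPoint (PhiB K a) hc with hzf
  have hfix : PhiB K a zf = zf := hc.fixedPoint_isFixedPt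
  have hfix' : Phi K a zf = zf := by
    funext n
    have := congrArg (fun f : BoundedContinuousFunction ℤ (ℝ × ℝ) => f n) hfix
    exact this
  have hbd : Bd zf := by
    intro n
    have e := congrFun hfix' n
    constructor
    · rw [← e]; exact gg_bd _
    · rw [← e]; exact gg_bd _
  refine ⟨zf, ⟨hbd, (fixed_iff hK hK' ha hbd).1 hfix'⟩, ?_⟩
  rintro y ⟨hy1, hy2⟩
  have hy3 := (fixed_iff hK hK' ha hy1).2 hy2
  have hyb : ∀ n, ‖y n‖ ≤ 1 := fun n => by
    rw [Prod.norm_def]; exact max_le (hy1 n).1 (hy1 n).2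
  let yb : BoundedContinuousFunction ℤ (ℝ × ℝ) :=
    BoundedContinuousFunction.ofNormedAddCommGroupDiscrete y 1 hyb
  have h4 : PhiB K a yb = yb := by
    ext1 n
    exact congrFun hy3 n
  have h5 : yb = zf := hc.fixedPoint_unique h4
  funext n
  exact congrArg (fun f : BoundedContinuousFunction ℤ (ℝ × ℝ) => f n) h5

section coding
variable {L : Type} [Fintype L] [TopologicalSpace L] [DiscreteTopology L]

/-- integer code of a letter -/
noncomputable def codeZ (l : L) : ℤ := (Fintype.equivFin L l : ℕ)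

lemma codeZ_inj : Function.Injective (codeZ : L → ℤ) := by
  intro a b h
  unfold codeZ at h
  have : (Fintype.equivFin L a : ℕ) = (Fintype.equivFin L b : ℕ) := by exact_mod_cast h
  exact (Fintype.equivFin L).injective (Fin.ext this)

lemma codeZ_bd (l : L) : |((codeZ l : ℤ) : ℝ)| ≤ Fintype.card L := by
  unfold codeZ
  have := (Fintype.equivFin L l).2
  have h2 : ((Fintype.equivFin L l : ℕ) : ℝ) ≤ (Fintype.card L : ℝ) := by exact_mod_cast this.le
  rw [Int.cast_natCast, abs_of_nonneg (by positivity)]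
  exact h2

variable (L) in
/-- The parameter. -/
noncomputable def KK : ℝ := 20 * (Fintype.card L + 1)

variable (L) in
lemma KK_ge : 20 ≤ KK L := by
  rw [KK]
  have : (0 : ℝ) ≤ Fintype.card L := by positivity
  linarith

variable (L) in
lemma KK_ge' : 4 + 4 * Real.pi * (Fintype.card L) ≤ KK L := by
  rw [KK]
  have : (0 : ℝ) ≤ Fintype.card L := by positivity
  have := Real.pi_lt_four
  nlinarith

/-- The solution with given itinerary. -/
noncomputable def sol (x : ℤ → L) : ℤ → ℝ × ℝ :=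
  (exists_unique_sol (KK_ge' L) (KK_ge L) (a := fun n => codeZ (x n))
    (fun n => codeZ_bd _)).choose

lemma sol_bd (x : ℤ → L) : Bd (sol x) :=
  (exists_unique_sol (KK_ge' L) (KK_ge L) (a := fun n => codeZ (x n))
    (fun n => codeZ_bd _)).choose_spec.1.1

lemma sol_sol (x : ℤ → L) : Sol (KK L) (fun n => codeZ (x n)) (sol x) :=
  (exists_unique_sol (KK_ge' L) (KK_ge L) (a := fun n => codeZ (x n))
    (fun n => codeZ_bd _)).choose_spec.1.2

lemma sol_unique (x : ℤ → L) {z : ℤ → ℝ × ℝ} (h1 : Bd z)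
    (h2 : Sol (KK L) (fun n => codeZ (x n)) z) : z = sol x :=
  (exists_unique_sol (KK_ge' L) (KK_ge L) (a := fun n => codeZ (x n))
    (fun n => codeZ_bd _)).choose_spec.2 z ⟨h1, h2⟩

/-- the shift -/
def sh (x : ℤ → L) : ℤ → L := fun n => x (n + 1)

lemma sol_sh (x : ℤ → L) : sol (sh x) = fun n => sol x (n + 1) := by
  symm
  apply sol_unique
  · intro n; exact sol_bd x (n + 1)
  · intro n; exact sol_sol x (n + 1)

/-- The coding map. -/
noncomputable def pp (x : ℤ → L) : T2 := (Circle.exp (sol x 0).1, Circle.exp (sol x 0).2)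

lemma im_exp (t : ℝ) : ((Circle.exp t : Circle) : ℂ).im = Real.sin t := by
  rw [Circle.coe_exp, Complex.exp_ofReal_mul_I_im]

lemma Fp_pp (x : ℤ → L) : Fp (KK L) (pp x) = pp (sh x) := by
  have h := sol_sol x 0
  have e : pp (sh x) = (Circle.exp (sol x 1).1, Circle.exp (sol x 1).2) := by
    rw [pp, sol_sh]; rfl
  rw [e]
  have h1 := h.1
  have h2 := h.2
  rw [zero_add] at h1 h2
  have e1 : Circle.exp (sol x 0).1 * Circle.exp (1 * (KK L * Real.sin (sol x 0).2))
      = Circle.exp (sol x 1).1 := by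
    rw [← Circle.exp_add, Circle.exp_eq_exp]
    refine ⟨codeZ (x 0), ?_⟩
    rw [h1]; ring
  have e2 : Circle.exp (sol x 0).2 * Circle.exp (1 * (KK L * Real.sin (sol x 1).1))
      = Circle.exp (sol x 1).2 := by
    rw [← Circle.exp_add, Circle.exp_eq_exp]
    refine ⟨0, ?_⟩
    rw [h2]; push_cast; ring
  change shR (KK L) 1 (shS (KK L) 1 (pp x)) = _
  have e3 : shS (KK L) 1 (pp x) = (Circle.exp (sol x 1).1, Circle.exp (sol x 0).2) := by
    rw [shS, pp]
    ext1
    · simp only [im_exp]; exact e1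
    · rfl
  rw [e3, shR]
  ext1
  · rfl
  · simp only [im_exp]; exact e2

lemma exp_inj_small {s t : ℝ} (hs : |s| ≤ 1) (ht : |t| ≤ 1)
    (h : Circle.exp s = Circle.exp t) : s = t := by
  rw [Circle.exp_eq_exp] at h
  obtain ⟨m, hm⟩ := h
  have hpi := Real.pi_gt_three
  rw [abs_le] at hs ht
  have h1 : (m : ℝ) * (2 * Real.pi) = s - t := by linarith
  have h2 : m = 0 := by
    by_contra hne
    rcases lt_or_gt_of_ne hne with h3 | h3
    · have h4 : (m : ℝ) ≤ -1 := by exact_mod_cast (by omega : m ≤ -1)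
      nlinarith
    · have h4 : (1 : ℝ) ≤ m := by exact_mod_cast (by omega : 1 ≤ m)
      nlinarith
  rw [h2] at hm
  simpa using hm

lemma pp_zero_inj {x y : ℤ → L} (h : pp x = pp y) : sol x 0 = sol y 0 := by
  have h1 := congrArg Prod.fst h
  have h2 := congrArg Prod.snd h
  ext1
  · exact exp_inj_small (sol_bd x 0).1 (sol_bd y 0).1 h1
  · exact exp_inj_small (sol_bd x 0).2 (sol_bd y 0).2 h2

/-- iterated shift -/
def shn (k : ℤ) (x : ℤ → L) : ℤ → L := fun n => x (n + k)

lemma Fp_zpow_pp (k : ℤ) (x : ℤ → L) : (Fp (KK L) ^ k) (pp x) = pp (shn k x) := by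
  induction k using Int.induction_on with
  | zero =>
    rw [zpow_zero, Equiv.Perm.one_apply]
    congr 1
    funext n
    simp only [shn, add_zero]
  | succ k ih =>
    rw [add_comm, zpow_one_add, Equiv.Perm.mul_apply, ih, Fp_pp]
    congr 1
    funext n
    simp only [sh, shn]
    congr 1
    ring
  | pred k ih =>
    have h1 : (Fp (KK L)) ((Fp (KK L) ^ (-(k : ℤ) - 1)) (pp x)) = pp (shn (-k) x) := by
      rw [← ih, ← Equiv.Perm.mul_apply, ← zpow_one_add]
      congr 2
      ring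
    have h2 : (Fp (KK L)) (pp (shn (-k - 1) x)) = pp (shn (-k) x) := by
      rw [Fp_pp]
      congr 1
      funext n
      simp only [sh, shn]
      congr 1
      ring
    exact (Fp (KK L)).injective (h1.trans h2.symm)

lemma sol_shn (k : ℤ) (x : ℤ → L) : sol (shn k x) = fun n => sol x (n + k) := by
  symm
  apply sol_unique
  · intro n; exact sol_bd x (n + k)
  · intro n
    have := sol_sol x (n + k)
    rw [show n + k + 1 = n + 1 + k by ring] at this
    exact this

lemma pp_inj : Function.Injective (pp : (ℤ → L) → T2) := by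
  intro x y h
  have h1 : ∀ k : ℤ, sol x k = sol y k := by
    intro k
    have h2 : pp (shn k x) = pp (shn k y) := by
      rw [← Fp_zpow_pp, ← Fp_zpow_pp, h]
    have h3 := pp_zero_inj h2
    rw [sol_shn, sol_shn] at h3
    simpa using h3
  funext k
  have e1 := (sol_sol x k).1
  have e2 := (sol_sol y k).1
  rw [h1 k, h1 (k + 1)] at e1
  rw [e1] at e2
  have h4 : (2 * Real.pi) * ((codeZ (x k) : ℤ) : ℝ) = (2 * Real.pi) * ((codeZ (y k) : ℤ) : ℝ) := by
    linarith
  have h5 := mul_left_cancel₀ (by have := Real.pi_pos; positivity) h4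
  exact codeZ_inj (by exact_mod_cast h5)

/-- the space of bounded double sequences -/
abbrev Z2 := ℤ → (Icc (-1 : ℝ) 1 × Icc (-1 : ℝ) 1)

/-- The solution as a point of a compact space. -/
noncomputable def solc (x : ℤ → L) : Z2 := fun n =>
  (⟨(sol x n).1, abs_le.1 (sol_bd x n).1⟩, ⟨(sol x n).2, abs_le.1 (sol_bd x n).2⟩)

lemma continuous_code : Continuous (fun x : ℤ → L => fun n => ((codeZ (x n) : ℤ) : ℝ)) := by
  refine continuous_pi fun n => ?_
  exact (continuous_of_discreteTopology (f := fun l : L => ((codeZ l : ℤ) : ℝ))).comp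
    (continuous_apply n)

lemma graph_eq : {q : (ℤ → L) × Z2 | q.2 = solc q.1} = {q : (ℤ → L) × Z2 | ∀ n,
    KK L * Real.sin (q.2 n).2 = (q.2 (n + 1)).1 - (q.2 n).1 +
      2 * Real.pi * ((codeZ (q.1 n) : ℤ) : ℝ) ∧
    KK L * Real.sin (q.2 (n + 1)).1 = (q.2 (n + 1)).2 - (q.2 n).2} := by
  ext q
  constructor
  · intro h n
    rw [show q.2 = solc q.1 from h]
    exact sol_sol q.1 n
  · intro h
    have h1 : (fun n => (((q.2 n).1 : ℝ), ((q.2 n).2 : ℝ))) = sol q.1 := by
      apply sol_unique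
      · intro n
        exact ⟨abs_le.2 (q.2 n).1.2, abs_le.2 (q.2 n).2.2⟩
      · intro n
        exact h n
    change q.2 = solc q.1
    funext n
    have h2 := congrFun h1 n
    ext
    · exact congrArg Prod.fst h2
    · exact congrArg Prod.snd h2

lemma graph_closed : IsClosed {q : (ℤ → L) × Z2 | q.2 = solc q.1} := by
  rw [graph_eq]
  have hc : ∀ n, Continuous (fun q : (ℤ → L) × Z2 => ((codeZ (q.1 n) : ℤ) : ℝ)) := fun n =>
    (continuous_apply n).comp (continuous_code.comp continuous_fst)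
  have h1 : ∀ n, Continuous (fun q : (ℤ → L) × Z2 => ((q.2 n).1 : ℝ)) := fun n => by fun_prop
  have h2 : ∀ n, Continuous (fun q : (ℤ → L) × Z2 => ((q.2 n).2 : ℝ)) := fun n => by fun_prop
  rw [show {q : (ℤ → L) × Z2 | ∀ n,
    KK L * Real.sin (q.2 n).2 = (q.2 (n + 1)).1 - (q.2 n).1 +
      2 * Real.pi * ((codeZ (q.1 n) : ℤ) : ℝ) ∧
    KK L * Real.sin (q.2 (n + 1)).1 = (q.2 (n + 1)).2 - (q.2 n).2} =
    ⋂ n, ({q : (ℤ → L) × Z2 | KK L * Real.sin (q.2 n).2 = (q.2 (n + 1)).1 - (q.2 n).1 +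
      2 * Real.pi * ((codeZ (q.1 n) : ℤ) : ℝ)} ∩ {q : (ℤ → L) × Z2 |
      KK L * Real.sin (q.2 (n + 1)).1 = (q.2 (n + 1)).2 - (q.2 n).2}) by
    ext q; simp]
  refine isClosed_iInter fun n => IsClosed.inter ?_ ?_
  · exact isClosed_eq (continuous_const.mul (Real.continuous_sin.comp (h2 n)))
      (((h1 (n + 1)).sub (h1 n)).add (continuous_const.mul (hc n)))
  · exact isClosed_eq (continuous_const.mul (Real.continuous_sin.comp (h1 (n + 1))))
      ((h2 (n + 1)).sub (h2 n))

lemma continuous_solc : Continuous (solc : (ℤ → L) → Z2) := by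
  rw [continuous_iff_isClosed]
  intro s hs
  have h1 : (solc : (ℤ → L) → Z2) ⁻¹' s =
      Prod.fst '' ({q : (ℤ → L) × Z2 | q.2 = solc q.1} ∩ Prod.snd ⁻¹' s) := by
    ext x
    constructor
    · intro hx
      exact ⟨(x, solc x), ⟨rfl, hx⟩, rfl⟩
    · rintro ⟨q, ⟨hq1, hq2⟩, rfl⟩
      rw [mem_preimage, ← (show q.2 = solc q.1 from hq1)]
      exact hq2
  rw [h1]
  exact isClosedMap_fst_of_compactSpace _ (graph_closed.inter (hs.preimage continuous_snd))

lemma continuous_pp : Continuous (pp : (ℤ → L) → T2) := by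
  have h1 : Continuous (fun x : ℤ → L => ((solc x 0).1 : ℝ)) :=
    continuous_subtype_val.comp (continuous_fst.comp ((continuous_apply 0).comp continuous_solc))
  have h2 : Continuous (fun x : ℤ → L => ((solc x 0).2 : ℝ)) :=
    continuous_subtype_val.comp (continuous_snd.comp ((continuous_apply 0).comp continuous_solc))
  exact (Circle.exp.continuous.comp h1).prodMk (Circle.exp.continuous.comp h2)

/-- a point off the image -/
lemma not_mem_range_pp (w : Circle) (x : ℤ → L) : pp x ≠ (-1, w) := by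
  intro h
  have h1 := congrArg Prod.fst h
  have h2 : ((Circle.exp (sol x 0).1 : Circle) : ℂ) = ((-1 : Circle) : ℂ) := by
    exact congrArg _ h1
  have h3 : Real.cos (sol x 0).1 = -1 := by
    have := congrArg Complex.re h2
    rw [Circle.coe_exp, Complex.exp_ofReal_mul_I_re] at this
    simpa using this
  have h4 := (sol_bd x 0).1
  have h5 := Real.one_sub_sq_div_two_le_cos (x := (sol x 0).1)
  have h6 : (sol x 0).1 ^ 2 ≤ 1 := by
    rw [abs_le] at h4; nlinarith [h4.1, h4.2]
  linarith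

end coding

end TorusFlow
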