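import Mathlib

open Set Filter Topology
open scoped Manifold ContDiff

namespace FlowEntropy

/-- `D` is a metric on the topological space `M` inducing its topology. -/
structure CompatibleMetric (M : Type) [TopologicalSpace M] (D : M → M → ℝ) : Prop where
  eq_zero_iff : ∀ x y, D x y = 0 ↔ x = y
  symm : ∀ x y, D x y = D y x
  triangle : ∀ x y z, D x z ≤ D x y + D y z
  isOpen_iff : ∀ U : Set M, IsOpen U ↔ ∀ x ∈ U, ∃ r > 0, ∀ y, D x y < r → y ∈ U

/-- The three-dimensional torus, a compact smooth manifold. -/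
abbrev Torus3 := Circle × (Circle × Circle)

/-- A `C^∞` flow on a manifold modelled by `I`. -/
structure SmoothFlow {E H M : Type} [NormedAddCommGroup E] [NormedSpace ℝ E]
    [TopologicalSpace H] (I : ModelWithCorners ℝ E H) [TopologicalSpace M] [ChartedSpace H M]
    (φ : ℝ → M → M) : Prop where
  zero : ∀ x, φ 0 x = x
  add : ∀ s t x, φ (s + t) x = φ s (φ t x)
  smooth : ContMDiff (𝓘(ℝ, ℝ).prod I) I ∞ (fun p : ℝ × M => φ p.1 p.2)

/-- `D_T(x,y) = max_{0 ≤ t ≤ T} D(φ^t x, φ^t y)`. -/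
noncomputable def flowDist {M : Type} (φ : ℝ → M → M) (D : M → M → ℝ) (T : ℝ) (x y : M) : ℝ :=
  sSup ((fun t => D (φ t x) (φ t y)) '' Icc 0 T)

/-- The sizes of the finite `ε`-separated sets for `D_T`. -/
def sepSizes {M : Type} (φ : ℝ → M → M) (D : M → M → ℝ) (ε T : ℝ) : Set ℕ :=
  {n | ∃ S : Finset M, S.card = n ∧ ∀ x ∈ S, ∀ y ∈ S, x ≠ y → ε ≤ flowDist φ D T x y}

/-- `sep(M, ε, D_T)`. -/
noncomputable def sep {M : Type} (φ : ℝ → M → M) (D : M → M → ℝ) (ε T : ℝ) : ℕ :=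
  sSup (sepSizes φ D ε T)

/-- The sizes of the finite `ε`-spanning sets for `D_T`. -/
def spanSizes {M : Type} (φ : ℝ → M → M) (D : M → M → ℝ) (ε T : ℝ) : Set ℕ :=
  {n | ∃ S : Finset M, S.card = n ∧ ∀ x, ∃ y ∈ S, flowDist φ D T y x < ε}

/-- `span(M, ε, D_T)`. -/
noncomputable def span {M : Type} (φ : ℝ → M → M) (D : M → M → ℝ) (ε T : ℝ) : ℕ :=
  sInf (spanSizes φ D ε T)

end FlowEntropy
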