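import Mathlib

open Set Filter Topology

namespace FlowEntropy

lemma gap_of_frequently {f : ℝ → ℝ} {c1 c2 : ℝ} (h : c1 < c2)
    (h1 : ∃ᶠ T in atTop, f T ≤ c1) (h2 : ∃ᶠ T in atTop, c2 ≤ f T) :
    liminf (fun T : ℝ => ((f T : ℝ) : EReal)) atTop <
      limsup (fun T : ℝ => ((f T : ℝ) : EReal)) atTop := by
  have a1 : liminf (fun T : ℝ => ((f T : ℝ) : EReal)) atTop ≤ (c1 : EReal) :=
    liminf_le_of_frequently_le' (h1.mono fun T hT => by exact_mod_cast hT)
  have a2 : (c2 : EReal) ≤ limsup (fun T : ℝ => ((f T : ℝ) : EReal)) atTop :=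
    le_limsup_of_frequently_le' (h2.mono fun T hT => by exact_mod_cast hT)
  exact a1.trans_lt ((by exact_mod_cast h : (c1 : EReal) < c2).trans_le a2)

/-- A sequence bound with polynomial prefactor. -/
lemma eventually_rate {s : ℕ → ℕ} {β c : ℝ} {p : ℕ} (hβ : 0 ≤ β) (hc : β < c)
    (C : ℝ)
    (hs : ∀ K, Real.log (s K) ≤ C + p * Real.log (16 ^ K) + β * 16 ^ K) :
    ∀ᶠ K : ℕ in atTop, Real.log (s K) / (16 ^ K - 1) ≤ c := by
  have h1 : (fun x : ℝ => (C + c) + p * Real.log x) =o[atTop] (fun x : ℝ => x) := by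
    apply Asymptotics.IsLittleO.add
    · exact Asymptotics.isLittleO_const_id_atTop _
    · exact (Real.isLittleO_log_id_atTop).const_mul_left _
  have h2 : Tendsto (fun K : ℕ => (16 : ℝ) ^ K) atTop atTop :=
    tendsto_pow_atTop_atTop_of_one_lt (by norm_num)
  have h3 := h2.eventually (h1.def (sub_pos.2 hc))
  have h4 := h2.eventually (eventually_gt_atTop 1)
  filter_upwards [h3, h4] with K h3 h4
  rw [div_le_iff₀ (by linarith)]
  have h5 : C + c + p * Real.log (16 ^ K) ≤ (c - β) * 16 ^ K := by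
    refine (le_abs_self _).trans ?_
    rw [Real.norm_eq_abs, Real.norm_eq_abs, abs_of_pos (by linarith : (0 : ℝ) < 16 ^ K)] at h3
    exact h3
  have h6 := hs K
  linarith

end FlowEntropy
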