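import Pool.Agent.Helper98.Flow.Defs

open Set Filter Topology

namespace FlowEntropy

section
variable {M : Type} [MetricSpace M] [CompactSpace M]

/-- The metric adapted to a relation. -/
noncomputable def adD (R : Set (M × M)) (η : ℝ) (x y : M) : ℝ :=
  max (min (1 / 2) (dist x y / η)) (1 - Metric.infDist (x, y) R / η)

lemma infDist_le_left (R : Set (M × M)) (x y z : M) :
    Metric.infDist (y, z) R ≤ Metric.infDist (x, z) R + dist x y := by
  have := Metric.infDist_le_infDist_add_dist (s := R) (x := (y, z)) (y := (x, z))
  refine this.trans ?_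
  rw [Prod.dist_eq]
  simp [dist_comm y x]

lemma infDist_symm (R : Set (M × M)) (hs : ∀ x y, (x, y) ∈ R → (y, x) ∈ R) (x y : M) :
    Metric.infDist (x, y) R = Metric.infDist (y, x) R := by
  rcases R.eq_empty_or_nonempty with h | h
  · subst h; simp
  have key : ∀ x y : M, Metric.infDist (x, y) R ≤ Metric.infDist (y, x) R := by
    intro x y
    refine (Metric.le_infDist h).2 ?_
    rintro ⟨a, b⟩ hab
    refine (Metric.infDist_le_dist_of_mem (hs _ _ hab)).trans ?_
    simp only [Prod.dist_eq]
    rw [max_comm]
  exact le_antisymm (key x y) (key y x)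

variable {R : Set (M × M)} {δ : ℝ}

lemma adD_far (hδ : ∀ x y, (x, y) ∈ R → δ ≤ dist x y) (hne : R.Nonempty) {x y : M} {c : ℝ}
    (h : Metric.infDist (x, y) R < c) : δ - 2 * c < dist x y := by
  obtain ⟨⟨a, b⟩, hab, hd⟩ := (Metric.infDist_lt_iff hne).1 h
  rw [Prod.dist_eq, max_lt_iff] at hd
  have h1 := hδ a b hab
  have h2 : dist a b ≤ dist a x + dist x y + dist y b := dist_triangle4 _ _ _ _
  rw [dist_comm a x] at h2
  have h3 : dist x a < c := hd.1
  have h4 : dist y b < c := hd.2
  linarith

lemma adD_continuous (R : Set (M × M)) (η : ℝ) : Continuous (fun p : M × M => adD R η p.1 p.2) := by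
  unfold adD
  have := Metric.continuous_infDist_pt R
  fun_prop

theorem adD_compat (hs : ∀ x y, (x, y) ∈ R → (y, x) ∈ R) (hne : R.Nonempty)
    (hδ0 : 0 < δ) (hδ : ∀ x y, (x, y) ∈ R → δ ≤ dist x y) :
    CompatibleMetric M (adD R (δ / 4)) := by
  set η := δ / 4 with hη
  have hη0 : 0 < η := by positivity
  have hδη : δ = 4 * η := by rw [hη]; ring
  have near : ∀ x y : M, dist x y ≤ 2 * η → 1 - Metric.infDist (x, y) R / η ≤ 0 := by
    intro x y h
    rw [sub_nonpos, one_le_div hη0]
    by_contra hc
    push Not at hc
    have := adD_far hδ hne hc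
    linarith
  have diag : ∀ x y : M, adD R η x y = 0 ↔ x = y := by
    intro x y
    constructor
    · intro h
      by_contra hne'
      have h1 : 0 < min (1 / 2) (dist x y / η) := lt_min (by norm_num) (by
        have := dist_pos.2 hne'; positivity)
      have := le_max_left (min (1 / 2) (dist x y / η)) (1 - Metric.infDist (x, y) R / η)
      rw [adD] at h
      linarith
    · rintro rfl
      rw [adD, dist_self, zero_div, min_eq_right (by norm_num), max_eq_left]
      apply near
      rw [dist_self]; positivity
  have sy : ∀ x y : M, adD R η x y = adD R η y x := by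
    intro x y
    rw [adD, adD, dist_comm, infDist_symm R hs]
  have lb : ∀ x y : M, min (1 / 2) (dist x y / η) ≤ adD R η x y := fun x y => le_max_left _ _
  have lb2 : ∀ x y : M, 1 - Metric.infDist (x, y) R / η ≤ adD R η x y := fun x y =>
    le_max_right _ _
  have nn : ∀ x y : M, 0 ≤ adD R η x y := fun x y =>
    (le_min (by norm_num) (by positivity)).trans (lb x y)
  refine ⟨diag, sy, ?_, ?_⟩
  · -- triangle inequality
    have half : ∀ x y z : M, min (1 / 2) (dist x z / η) ≤ adD R η x y + adD R η y z := by
      intro x y z
      have h1 : min (1 / 2) (dist x z / η) ≤ min (1 / 2) (dist x y / η) +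
          min (1 / 2) (dist y z / η) := by
        have h2 : dist x z / η ≤ dist x y / η + dist y z / η := by
          rw [← add_div]
          gcongr
          exact dist_triangle _ _ _
        have h3 : 0 ≤ dist x y / η := by positivity
        have h4 : 0 ≤ dist y z / η := by positivity
        rcases min_cases (1 / 2) (dist x y / η) with ⟨e1, -⟩ | ⟨e1, -⟩ <;>
        rcases min_cases (1 / 2) (dist y z / η) with ⟨e2, -⟩ | ⟨e2, -⟩ <;>
        rw [e1, e2]
        · exact (min_le_left _ _).trans (by norm_num)
        · exact (min_le_left _ _).trans (by linarith)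
        · exact (min_le_left _ _).trans (by linarith)
        · exact (min_le_right _ _).trans h2
      exact h1.trans (add_le_add (lb x y) (lb y z))
    intro x y z
    rw [adD]
    refine max_le (half x y z) ?_
    rcases le_or_gt (Metric.infDist (x, z) R) (η / 2) with hI | hI
    swap
    · have h1 : 1 - Metric.infDist (x, z) R / η ≤ 1 / 2 := by
        have : 1 / 2 < Metric.infDist (x, z) R / η := by
          rw [lt_div_iff₀ hη0]; linarith
        linarith
      by_cases h2 : 2 * η < dist x z
      · refine le_trans ?_ (half x y z)
        refine le_min h1 (h1.trans ?_)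
        rw [le_div_iff₀ hη0]; linarith
      · exact (near x z (not_lt.1 h2)).trans (add_nonneg (nn _ _) (nn _ _))
    · have h0 : 2 * η < dist x z := by
        have := adD_far hδ hne (lt_of_le_of_lt hI (by linarith : η / 2 < η))
        linarith
      by_cases hx : dist x y < η / 2
      · have h1 : dist x y / η ≤ adD R η x y := by
          refine le_trans ?_ (lb x y)
          refine le_min ?_ le_rfl
          rw [div_le_iff₀ hη0]; linarith
        have h2 := infDist_le_left R x y z
        have h3 := lb2 y z
        have h4 : Metric.infDist (y, z) R / η ≤ Metric.infDist (x, z) R / η + dist x y / η := by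
          rw [← add_div]; gcongr
        linarith
      · by_cases hz : dist y z < η / 2
        · have h1 : dist y z / η ≤ adD R η y z := by
            refine le_trans ?_ (lb y z)
            refine le_min ?_ le_rfl
            rw [div_le_iff₀ hη0]; linarith
          have h2 : Metric.infDist (x, y) R ≤ Metric.infDist (x, z) R + dist y z := by
            rw [infDist_symm R hs x y, infDist_symm R hs x z, dist_comm y z]
            exact infDist_le_left R z y x
          have h3 := lb2 x y
          have h4 : Metric.infDist (x, y) R / η ≤ Metric.infDist (x, z) R / η + dist y z / η := by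
            rw [← add_div]; gcongr
          linarith
        · have h1 : 1 / 2 ≤ adD R η x y := by
            refine le_trans ?_ (lb x y)
            refine le_min le_rfl ?_
            rw [le_div_iff₀ hη0]; linarith
          have h2 : 1 / 2 ≤ adD R η y z := by
            refine le_trans ?_ (lb y z)
            refine le_min le_rfl ?_
            rw [le_div_iff₀ hη0]; linarith
          have h3 : 0 ≤ Metric.infDist (x, z) R / η := by
            have := Metric.infDist_nonneg (x := (x, z)) (s := R); positivity
          linarith
  · intro U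
    rw [Metric.isOpen_iff]
    constructor
    · intro h x hx
      obtain ⟨r, hr, hrU⟩ := h x hx
      refine ⟨min (1 / 2) (r / η), by positivity, fun y hy => ?_⟩
      apply hrU
      rw [Metric.mem_ball, dist_comm]
      have h1 := lt_of_le_of_lt (lb x y) hy
      rcases min_cases (1 / 2) (dist x y / η) with ⟨e1, e2⟩ | ⟨e1, e2⟩
      · rw [e1] at h1
        exact absurd (h1.trans_le (min_le_left _ _)) (lt_irrefl _)
      · rw [e1] at h1
        exact (div_lt_div_iff_of_pos_right hη0).1 (h1.trans_le (min_le_right _ _))
    · intro h x hx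
      obtain ⟨r, hr, hrU⟩ := h x hx
      refine ⟨min (2 * η) (r * η), by positivity, fun y hy => ?_⟩
      apply hrU
      rw [Metric.mem_ball, dist_comm, lt_min_iff] at hy
      rw [adD]
      refine max_lt ?_ (lt_of_le_of_lt (near x y hy.1.le) hr)
      refine lt_of_le_of_lt (min_le_right _ _) ?_
      rw [div_lt_iff₀ hη0]
      exact hy.2

lemma one_le_adD (hc : IsClosed R) (hne : R.Nonempty) (hδ0 : 0 < δ) (x y : M) :
    1 ≤ adD R (δ / 4) x y ↔ (x, y) ∈ R := by
  have hη0 : 0 < δ / 4 := by positivity
  have h0 := Metric.infDist_nonneg (x := (x, y)) (s := R)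
  rw [adD, le_max_iff]
  constructor
  · rintro (h | h)
    · exact absurd (h.trans (min_le_left _ _)) (by norm_num)
    · have h1 : Metric.infDist (x, y) R / (δ / 4) ≤ 0 := by linarith
      have h2 : Metric.infDist (x, y) R ≤ 0 := by
        by_contra hcon
        push Not at hcon
        have : 0 < Metric.infDist (x, y) R / (δ / 4) := by positivity
        linarith
      exact (hc.mem_iff_infDist_zero hne).2 (le_antisymm h2 h0)
  · intro h
    right
    rw [(hc.mem_iff_infDist_zero hne).1 h]
    simp

/-- Existence of a compatible metric adapted to a closed symmetric relation. -/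
theorem exists_metric (hc : IsClosed R) (hs : ∀ x y, (x, y) ∈ R → (y, x) ∈ R)
    (hne : R.Nonempty) (hd : ∀ x, (x, x) ∉ R) :
    ∃ D : M → M → ℝ, CompatibleMetric M D ∧ Continuous (fun p : M × M => D p.1 p.2) ∧
      ∀ x y, 1 ≤ D x y ↔ (x, y) ∈ R := by
  obtain ⟨⟨a, b⟩, hab, hmin⟩ := hc.isCompact.exists_isMinOn hne
    (f := fun p : M × M => dist p.1 p.2) (by fun_prop)
  have hab' : a ≠ b := by
    rintro rfl; exact hd _ hab
  have hδ0 : 0 < dist a b := dist_pos.2 hab'
  refine ⟨adD R (dist a b / 4), adD_compat hs hne hδ0 fun x y hxy => hmin hxy,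
    adD_continuous _ _, fun x y => one_le_adD hc hne hδ0 x y⟩

end

end FlowEntropy
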