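import Pool.Agent.Helper98.Flow.Smooth
import Pool.Agent.Helper98.Flow.Coding
import Pool.Agent.Helper98.Flow.Metric

open Set Filter Topology
open scoped Manifold ContDiff

set_option linter.unusedSectionVars false

namespace FlowEntropy
open TorusFlow

lemma flow_smoothFlow (K : ℝ) : SmoothFlow I3 (flow K) :=
  ⟨flow_zero K, flow_add K, smooth_flow K⟩

lemma flow_continuous (K : ℝ) : Continuous (fun p : ℝ × T3 => flow K p.1 p.2) :=
  (smooth_flow K).continuous

lemma flow_continuous_left (K : ℝ) (x : T3) : Continuous (fun t : ℝ => flow K t x) :=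
  (flow_continuous K).comp (continuous_id.prodMk continuous_const)

lemma exp_int (m : ℤ) : Circle.exp (2 * Real.pi * m) = 1 := by
  have h : Circle.exp (2 * Real.pi * m) = Circle.exp 0 := by
    rw [Circle.exp_eq_exp]
    exact ⟨m, by ring⟩
  rw [h]; simp

lemma Pp_int (K : ℝ) (m : ℤ) : Pp K m = Fp K ^ m := by
  have := Pp_add_int K 0 m
  rwa [zero_add, Pp_zero, one_mul] at this

lemma flow_sec_int (K : ℝ) (m : ℤ) (p : T2) :
    flow K m ((1 : Circle), p) = ((1 : Circle), (Fp K ^ m) p) := by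
  rw [flow_eq K m _ 0 (by simp)]
  simp only [one_mul]
  rw [exp_int, zero_add, Pp_int, Pp_zero]
  simp

lemma flow_fst (K t : ℝ) (x : T3) : (flow K t x).1 = x.1 * Circle.exp (2 * Real.pi * t) := rfl

lemma time_int {θ : Circle} {s t : ℝ} (hs : θ * Circle.exp (2 * Real.pi * s) = 1)
    (ht : θ * Circle.exp (2 * Real.pi * t) = 1) : ∃ m : ℤ, t = s + m := by
  have h1 : Circle.exp (2 * Real.pi * t) = Circle.exp (2 * Real.pi * s) :=
    mul_left_cancel (ht.trans hs.symm)
  rw [Circle.exp_eq_exp] at h1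
  obtain ⟨m, hm⟩ := h1
  refine ⟨m, ?_⟩
  have hpi := Real.pi_pos
  have : 2 * Real.pi * t = 2 * Real.pi * (s + m) := by rw [hm]; ring
  exact mul_left_cancel₀ (by positivity) this

lemma exists_phase (θ : Circle) :
    ∃ τ : ℝ, 0 ≤ τ ∧ τ < 1 ∧ θ * Circle.exp (2 * Real.pi * τ) = 1 := by
  refine ⟨Int.fract (-lift1 θ), Int.fract_nonneg _, Int.fract_lt_one _, ?_⟩
  have h1 : 2 * Real.pi * Int.fract (-lift1 θ) =
      -(2 * Real.pi * lift1 θ) + 2 * Real.pi * ((-⌊-lift1 θ⌋ : ℤ) : ℝ) := by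
    rw [Int.fract]; push_cast; ring
  rw [h1, Circle.exp_add, exp_int, mul_one, Circle.exp_neg, exp_lift1, mul_inv_cancel]

lemma flow_neg_flow (K t : ℝ) (x : T3) : flow K (-t) (flow K t x) = x := by
  rw [← flow_add, neg_add_cancel, flow_zero]

lemma flow_inj (K t : ℝ) {x y : T3} (h : flow K t x = flow K t y) : x = y := by
  rw [← flow_neg_flow K t x, h, flow_neg_flow]

lemma one_le_flowDist {φ : ℝ → T3 → T3} (hφ : ∀ x, Continuous (fun t => φ t x))
    {D : T3 → T3 → ℝ} (hD : Continuous (fun p : T3 × T3 => D p.1 p.2)) {T : ℝ} (hT : 0 ≤ T)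
    (x y : T3) : 1 ≤ flowDist φ D T x y ↔ ∃ t ∈ Icc 0 T, 1 ≤ D (φ t x) (φ t y) := by
  have hc : Continuous (fun t => D (φ t x) (φ t y)) := hD.comp ((hφ x).prodMk (hφ y))
  have hcomp : IsCompact ((fun t => D (φ t x) (φ t y)) '' Icc 0 T) :=
    isCompact_Icc.image hc
  have hne : ((fun t => D (φ t x) (φ t y)) '' Icc 0 T).Nonempty :=
    (nonempty_Icc.2 hT).image _
  rw [flowDist]
  constructor
  · intro h
    obtain ⟨t, ht, he⟩ := hcomp.sSup_mem hne
    exact ⟨t, ht, by rw [← he] at h; exact h⟩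
  · rintro ⟨t, ht, h⟩
    exact h.trans (le_csSup hcomp.bddAbove ⟨t, ht, rfl⟩)

end FlowEntropy
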