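import Mathlib

open Finset

namespace FlowEntropy

/-- Tensor-power rank bound for cliques. -/
theorem tensor_bound {𝔽 E V α : Type} [Field 𝔽] [Fintype E] [DecidableEq E]
    (u v : V → E → 𝔽) (hd : ∀ x, ∑ e, u x e * v x e ≠ 0) (S : Finset α) (b : ℕ)
    (wd : α → Fin b → V)
    (h : ∀ x ∈ S, ∀ y ∈ S, x ≠ y → ∃ i, ∑ e, u (wd x i) e * v (wd y i) e = 0) :
    S.card ≤ (Fintype.card E) ^ b := by
  classical
  let U : S → ((Fin b → E) → 𝔽) := fun x f => ∏ i, u (wd x i) (f i)
  have hpair : ∀ x y : S, ∑ f : Fin b → E, U x f * ∏ i, v (wd y i) (f i) =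
      ∏ i, ∑ e, u (wd x i) e * v (wd y i) e := by
    intro x y
    rw [Finset.prod_univ_sum, Fintype.piFinset_univ]
    refine Finset.sum_congr rfl fun f _ => ?_
    rw [← Finset.prod_mul_distrib]
  have hli : LinearIndependent 𝔽 U := by
    rw [Fintype.linearIndependent_iff]
    intro g hg y
    have h1 : ∑ f : Fin b → E, (∑ x : S, g x • U x) f * ∏ i, v (wd y i) (f i) = 0 := by
      rw [hg]; simp
    have h2 : ∑ f : Fin b → E, (∑ x : S, g x • U x) f * ∏ i, v (wd y i) (f i) =
        ∑ x : S, g x * ∏ i, ∑ e, u (wd x i) e * v (wd y i) e := by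
      simp only [Finset.sum_apply, Pi.smul_apply, smul_eq_mul, Finset.sum_mul]
      rw [Finset.sum_comm]
      refine Finset.sum_congr rfl fun x _ => ?_
      rw [← hpair, Finset.mul_sum]
      refine Finset.sum_congr rfl fun f _ => ?_
      ring
    rw [h1, Finset.sum_eq_single y] at h2
    · rcases mul_eq_zero.1 h2.symm with h3 | h3
      · exact h3
      · exact absurd h3 (Finset.prod_ne_zero_iff.2 fun i _ => hd _)
    · intro x _ hxy
      obtain ⟨i, hi⟩ := h x x.2 y y.2 (fun e => hxy (Subtype.ext e))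
      rw [Finset.prod_eq_zero (Finset.mem_univ i) hi, mul_zero]
    · intro hy; exact absurd (Finset.mem_univ _) hy
  have h3 := hli.fintype_card_le_finrank
  rw [Module.finrank_fintype_fun_eq_card] at h3
  simpa using h3

/-- The letters: three-element subsets of a set of 64 elements. -/
abbrev VV := {s : Finset (Fin 64) // s.card = 3}

/-- First relation. -/
def relA (x y : VV) : Prop := Even ((x : Finset (Fin 64)) ∩ y).card
/-- Second relation. -/
def relB (x y : VV) : Prop := ((x : Finset (Fin 64)) ∩ y).card = 1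

lemma card_VV : Fintype.card VV = 41664 := by
  rw [Fintype.card_finset_len, Fintype.card_fin]
  decide +kernel

lemma relA_symm {x y : VV} (h : relA x y) : relA y x := by
  unfold relA at *; rwa [Finset.inter_comm]

lemma relB_symm {x y : VV} (h : relB x y) : relB y x := by
  unfold relB at *; rwa [Finset.inter_comm]

lemma relA_irrefl (x : VV) : ¬ relA x x := by
  unfold relA; rw [Finset.inter_self, x.2]; decide

lemma relB_irrefl (x : VV) : ¬ relB x x := by
  unfold relB; rw [Finset.inter_self, x.2]; decide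

lemma rel_cover {x y : VV} (h : x ≠ y) : relA x y ∨ relB x y := by
  unfold relA relB
  have h1 : ((x : Finset (Fin 64)) ∩ y).card ≤ 3 :=
    (Finset.card_le_card Finset.inter_subset_left).trans x.2.le
  have h2 : ((x : Finset (Fin 64)) ∩ y).card ≠ 3 := by
    intro h3
    apply h
    have e1 : (x : Finset (Fin 64)) ∩ y = x :=
      Finset.eq_of_subset_of_card_le Finset.inter_subset_left (by rw [h3, x.2])
    have e2 : (x : Finset (Fin 64)) ∩ y = y :=
      Finset.eq_of_subset_of_card_le Finset.inter_subset_right (by rw [h3, y.2])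
    exact Subtype.ext (e1.symm.trans e2)
  interval_cases hc : ((x : Finset (Fin 64)) ∩ y).card
  · left; decide
  · right; rfl
  · left; decide
  · exact absurd rfl h2

lemma sum_ind {𝔽 : Type} [Field 𝔽] (x y : Finset (Fin 64)) :
    ∑ e, ((if e ∈ x then (1 : 𝔽) else 0) * (if e ∈ y then (1 : 𝔽) else 0)) =
      ((x ∩ y).card : 𝔽) := by
  rw [Finset.card_eq_sum_ones, Nat.cast_sum]
  rw [← Finset.sum_subset (Finset.subset_univ (x ∩ y))]
  · refine Finset.sum_congr rfl fun e he => ?_
    rw [Finset.mem_inter] at he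
    rw [if_pos he.1, if_pos he.2]; simp
  · intro e _ he
    rw [Finset.mem_inter, not_and_or] at he
    rcases he with he | he
    · rw [if_neg he, zero_mul]
    · rw [if_neg he, mul_zero]

theorem cliqueA {α : Type} (S : Finset α) (b : ℕ) (wd : α → Fin b → VV)
    (h : ∀ x ∈ S, ∀ y ∈ S, x ≠ y → ∃ i, relA (wd x i) (wd y i)) : S.card ≤ 65 ^ b := by
  haveI : Fact (Nat.Prime 2) := ⟨Nat.prime_two⟩
  have h1 := tensor_bound (𝔽 := ZMod 2) (E := Fin 64) (V := VV)
    (fun x e => if e ∈ (x : Finset (Fin 64)) then 1 else 0)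
    (fun x e => if e ∈ (x : Finset (Fin 64)) then 1 else 0) (fun x => ?_) S b wd
    (fun x hx y hy hxy => ?_)
  · refine h1.trans ?_
    rw [Fintype.card_fin]
    exact Nat.pow_le_pow_left (by norm_num) b
  · rw [sum_ind, Finset.inter_self, x.2]
    intro h3
    exact absurd ((ZMod.natCast_eq_zero_iff_even).1 h3) (by decide)
  · obtain ⟨i, hi⟩ := h x hx y hy hxy
    refine ⟨i, ?_⟩
    rw [sum_ind]
    exact (ZMod.natCast_eq_zero_iff_even).2 hi

theorem cliqueB {α : Type} (S : Finset α) (b : ℕ) (wd : α → Fin b → VV)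
    (h : ∀ x ∈ S, ∀ y ∈ S, x ≠ y → ∃ i, relB (wd x i) (wd y i)) : S.card ≤ 65 ^ b := by
  have h1 := tensor_bound (𝔽 := ℚ) (E := Option (Fin 64)) (V := VV)
    (fun x e => match e with
      | none => -1
      | some e => if e ∈ (x : Finset (Fin 64)) then 1 else 0)
    (fun x e => match e with
      | none => 1
      | some e => if e ∈ (x : Finset (Fin 64)) then 1 else 0) (fun x => ?_) S b wd
    (fun x hx y hy hxy => ?_)
  · refine h1.trans ?_
    rw [Fintype.card_option, Fintype.card_fin]
  · rw [Fintype.sum_option]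
    simp only
    rw [sum_ind, Finset.inter_self, x.2]; norm_num
  · obtain ⟨i, hi⟩ := h x hx y hy hxy
    refine ⟨i, ?_⟩
    rw [Fintype.sum_option]
    simp only
    rw [sum_ind]
    unfold relB at hi
    rw [hi]; norm_num

end FlowEntropy
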