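import Pool.Agent.Helper98.Flow.Coding
import Pool.Agent.Helper98.Flow.Words

open Set Filter Topology

set_option linter.unusedSectionVars false

namespace FlowEntropy
open TorusFlow

/-- The letters: a blank, the letters of the first phase and those of the second phase. -/
inductive Lt (V : Type) : Type
  | bl : Lt V
  | a (v : V) : Lt V
  | b (v : V) : Lt V
  deriving DecidableEq

section
variable {V : Type}

/-- Letters as a sum type. -/
def Lt.equiv : Lt V ≃ Option (V ⊕ V) where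
  toFun
    | .bl => none
    | .a v => some (Sum.inl v)
    | .b v => some (Sum.inr v)
  invFun
    | none => .bl
    | some (Sum.inl v) => .a v
    | some (Sum.inr v) => .b v
  left_inv x := by cases x <;> rfl
  right_inv x := by rcases x with _ | (x | x) <;> rfl

instance [Fintype V] : Fintype (Lt V) := Fintype.ofEquiv _ Lt.equiv.symm

instance : TopologicalSpace (Lt V) := ⊥
instance : DiscreteTopology (Lt V) := ⟨rfl⟩

/-- The generating sequences. -/
def gen (k : ℕ) (w : ℕ → V) (i : ℤ) : Lt V :=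
  if 0 ≤ i ∧ i < 4 * 16 ^ k then .a (w i.toNat)
  else if 5 * 16 ^ k ≤ i ∧ i < 9 * 16 ^ k then .b (w (i - 5 * 16 ^ k).toNat)
  else .bl

/-- The generating set. -/
def G (V : Type) : Set (ℤ → Lt V) := {x | ∃ k w s, x = fun i => gen k w (i + s)}

/-- The subshift. -/
def X (V : Type) : Set (ℤ → Lt V) := closure (G V)

lemma isClosed_X : IsClosed (X V) := isClosed_closure

lemma gen_mem (k : ℕ) (w : ℕ → V) : gen k w ∈ X V :=
  subset_closure ⟨k, w, 0, by funext i; rw [add_zero]⟩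

lemma shn_mem {x : ℤ → Lt V} (m : ℤ) (hx : x ∈ X V) : shn m x ∈ X V := by
  have h1 : MapsTo (shn m) (G V) (G V) := by
    rintro _ ⟨k, w, s, rfl⟩
    refine ⟨k, w, m + s, ?_⟩
    funext i
    simp only [shn]
    congr 1
    ring
  have h2 : Continuous (shn m : (ℤ → Lt V) → (ℤ → Lt V)) :=
    continuous_pi fun n => continuous_apply _
  exact h1.closure h2 hx

lemma window {x : ℤ → Lt V} (hx : x ∈ X V) (F : Finset ℤ) :
    ∃ k w s, ∀ i ∈ F, x i = gen k w (i + s) := by
  have h1 : ∃ᶠ y in 𝓝 x, y ∈ G V := mem_closure_iff_frequently.1 hx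
  have h2 : ∀ᶠ y in 𝓝 x, ∀ i ∈ F, y i = x i := by
    rw [Filter.eventually_all_finset]
    intro i _
    have h3 : Tendsto (fun y : ℤ → Lt V => y i) (𝓝 x) (𝓝 (x i)) :=
      (continuous_apply i).tendsto x
    exact h3 ((isOpen_discrete {x i}).mem_nhds rfl)
  obtain ⟨y, ⟨k, w, s, rfl⟩, hy⟩ := (h1.and_eventually h2).exists
  exact ⟨k, w, s, fun i hi => (hy i hi).symm⟩

end

/-- The relation on letters for the separation problem. -/
def rel : Lt VV → Lt VV → Prop
  | .a x, .a y => relA x y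
  | .b x, .b y => relB x y
  | _, _ => False

lemma rel_symm {x y : Lt VV} (h : rel x y) : rel y x := by
  cases x <;> cases y <;> simp only [rel] at h ⊢
  · exact relA_symm h
  · exact relB_symm h

lemma rel_irrefl (x : Lt VV) : ¬ rel x x := by
  cases x <;> simp only [rel, not_false_eq_true]
  · exact relA_irrefl _
  · exact relB_irrefl _

noncomputable instance : Inhabited VV := ⟨⟨{0, 1, 2}, by decide⟩⟩

/-- the underlying letter -/
noncomputable def lv : Lt VV → VV
  | .a x => x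
  | .b x => x
  | .bl => default

/-- window type one -/
def noB {V : Type} (n : ℤ) (x : ℤ → Lt V) : Prop := ∀ j, 0 ≤ j → j < n → ∀ v, x j ≠ .b v
/-- window type two -/
def noA {V : Type} (n : ℤ) (x : ℤ → Lt V) : Prop := ∀ j, 0 ≤ j → j < n → ∀ v, x j ≠ .a v

/-- short words -/
def short {V : Type} (n : ℤ) (k : ℕ) (s : ℤ) (x : ℤ → Lt V) : Prop :=
  ∃ w, ∀ j, 0 ≤ j → j < n → x j = gen k w (j + s)

lemma classify {V : Type} (K : ℕ) {x : ℤ → Lt V} (hx : x ∈ X V) :
    noB (16 ^ K) x ∨ noA (16 ^ K) x ∨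
      ∃ k < K, ∃ s : ℤ, -16 ^ K ≤ s ∧ s < 16 ^ K ∧ short (16 ^ K) k s x := by
  obtain ⟨k, w, s, h⟩ := window hx (Finset.Ico 0 (16 ^ K))
  have h' : ∀ j : ℤ, 0 ≤ j → j < 16 ^ K → x j = gen k w (j + s) := fun j h1 h2 =>
    h j (Finset.mem_Ico.2 ⟨h1, h2⟩)
  rcases lt_or_ge k K with hk | hk
  · have hpow : (9 : ℤ) * 16 ^ k ≤ 16 ^ K := by
      have : (16 : ℤ) ^ (k + 1) ≤ 16 ^ K := pow_le_pow_right₀ (by norm_num) hk
      rw [pow_succ] at this
      have h0 : (0 : ℤ) < 16 ^ k := by positivity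
      linarith
    by_cases hs : -16 ^ K ≤ s ∧ s < 16 ^ K
    · exact Or.inr (Or.inr ⟨k, hk, s, hs.1, hs.2, w, h'⟩)
    · left
      intro j h1 h2 v
      rw [h' j h1 h2, gen]
      have h0 : (0 : ℤ) < 16 ^ k := by positivity
      rw [if_neg, if_neg]
      · simp
      · rintro ⟨h3, h4⟩; apply hs; constructor <;> linarith
      · rintro ⟨h3, h4⟩; apply hs; constructor <;> linarith
  · have hpow : (16 : ℤ) ^ K ≤ 16 ^ k := pow_le_pow_right₀ (by norm_num) hk
    rcases lt_or_ge s (4 * 16 ^ k) with hs | hs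
    · left
      intro j h1 h2 v
      rw [h' j h1 h2, gen]
      split_ifs with h3 h4
      · simp
      · exfalso; linarith [h4.1]
      · simp
    · right; left
      intro j h1 h2 v
      rw [h' j h1 h2, gen]
      split_ifs with h3 h4
      · exfalso; linarith [h3.2]
      · simp
      · simp

/-- Cliques within a time window. -/
def Clique (n : ℤ) (S : Finset (ℤ → Lt VV)) : Prop :=
  ∀ x ∈ S, ∀ y ∈ S, x ≠ y → ∃ j : ℤ, 0 ≤ j ∧ j < n ∧ rel (x j) (y j)

lemma Clique.mono {n : ℤ} {S T : Finset (ℤ → Lt VV)} (h : Clique n S) (hT : T ⊆ S) :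
    Clique n T := fun x hx y hy hxy => h x (hT hx) y (hT hy) hxy

lemma clique_noB (n : ℕ) {S : Finset (ℤ → Lt VV)} (h : Clique n S)
    (hS : ∀ x ∈ S, noB n x) : S.card ≤ 65 ^ n := by
  apply cliqueA S n (fun x i => lv (x (i : ℕ)))
  intro x hx y hy hxy
  obtain ⟨j, h0, h1, h2⟩ := h x hx y hy hxy
  obtain ⟨m, rfl⟩ := Int.eq_ofNat_of_zero_le h0
  refine ⟨⟨m, by exact_mod_cast h1⟩, ?_⟩
  have e1 := hS x hx m h0 h1
  have e2 := hS y hy m h0 h1
  simp only at h2 ⊢
  generalize x (m : ℤ) = a at *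
  generalize y (m : ℤ) = b at *
  cases a <;> cases b <;> simp_all [rel, lv]

lemma clique_noA (n : ℕ) {S : Finset (ℤ → Lt VV)} (h : Clique n S)
    (hS : ∀ x ∈ S, noA n x) : S.card ≤ 65 ^ n := by
  apply cliqueB S n (fun x i => lv (x (i : ℕ)))
  intro x hx y hy hxy
  obtain ⟨j, h0, h1, h2⟩ := h x hx y hy hxy
  obtain ⟨m, rfl⟩ := Int.eq_ofNat_of_zero_le h0
  refine ⟨⟨m, by exact_mod_cast h1⟩, ?_⟩
  have e1 := hS x hx m h0 h1
  have e2 := hS y hy m h0 h1
  simp only at h2 ⊢
  generalize x (m : ℤ) = a at *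
  generalize y (m : ℤ) = b at *
  cases a <;> cases b <;> simp_all [rel, lv]

lemma gen_congr {V : Type} {k : ℕ} {w w' : ℕ → V} (h : ∀ i < 4 * 16 ^ k, w i = w' i) :
    gen k w = gen k w' := by
  funext i
  rw [gen, gen]
  split_ifs with h1 h2
  · rw [h]
    have := h1.2
    zify
    rw [Int.toNat_of_nonneg h1.1]
    exact this
  · rw [h]
    have := h2.2
    zify
    rw [Int.toNat_of_nonneg (by linarith [h2.1])]
    linarith
  · rfl

lemma clique_short (n : ℤ) (k : ℕ) (s : ℤ) {S : Finset (ℤ → Lt VV)} (h : Clique n S)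
    (hS : ∀ x ∈ S, short n k s x) : S.card ≤ 41664 ^ (4 * 16 ^ k) := by
  classical
  have h1 : ∀ x : S, ∃ w, ∀ j, 0 ≤ j → j < n → (x : ℤ → Lt VV) j = gen k w (j + s) :=
    fun x => hS x x.2
  choose w hw using h1
  let f : S → (Fin (4 * 16 ^ k) → VV) := fun x i => w x i
  have hf : Function.Injective f := by
    intro x y hxy
    by_contra hne
    obtain ⟨j, h0, h1, h2⟩ := h x x.2 y y.2 (fun e => hne (Subtype.ext e))
    rw [hw x j h0 h1, hw y j h0 h1] at h2
    have h3 : gen k (w x) = gen k (w y) := by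
      apply gen_congr
      intro i hi
      exact congrFun hxy ⟨i, hi⟩
    rw [h3] at h2
    exact rel_irrefl _ h2
  have h4 := Fintype.card_le_of_injective f hf
  rw [Fintype.card_fun, Fintype.card_fin, card_VV, Fintype.card_coe] at h4
  exact h4

theorem clique_upper (K : ℕ) (S : Finset (ℤ → Lt VV)) (hS : ∀ x ∈ S, x ∈ X VV)
    (h : Clique (16 ^ K) S) : S.card ≤ (2 * 16 ^ K * K + 2) * 65 ^ (16 ^ K) := by
  classical
  let S1 := S.filter (fun x => noB (16 ^ K) x)
  let S2 := S.filter (fun x => noA (16 ^ K) x)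
  let Λ : Finset (ℕ × ℤ) := Finset.range K ×ˢ Finset.Ico (-16 ^ K) (16 ^ K)
  let f : ℕ × ℤ → Finset (ℤ → Lt VV) := fun l => S.filter (fun x => short (16 ^ K) l.1 l.2 x)
  have hcast : ((16 ^ K : ℕ) : ℤ) = 16 ^ K := by push_cast; rfl
  have hsub : S ⊆ S1 ∪ S2 ∪ Λ.biUnion f := by
    intro x hx
    rw [Finset.mem_union, Finset.mem_union, Finset.mem_biUnion]
    rcases classify K (hS x hx) with h1 | h1 | ⟨k, hk, s, hs1, hs2, h1⟩
    · exact Or.inl (Or.inl (Finset.mem_filter.2 ⟨hx, h1⟩))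
    · exact Or.inl (Or.inr (Finset.mem_filter.2 ⟨hx, h1⟩))
    · refine Or.inr ⟨(k, s), ?_, Finset.mem_filter.2 ⟨hx, h1⟩⟩
      exact Finset.mem_product.2 ⟨Finset.mem_range.2 hk, Finset.mem_Ico.2 ⟨hs1, hs2⟩⟩
  have c1 : S1.card ≤ 65 ^ (16 ^ K) := by
    apply clique_noB
    · rw [hcast]; exact h.mono (Finset.filter_subset _ _)
    · intro x hx; rw [hcast]; exact (Finset.mem_filter.1 hx).2
  have c2 : S2.card ≤ 65 ^ (16 ^ K) := by
    apply clique_noA
    · rw [hcast]; exact h.mono (Finset.filter_subset _ _)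
    · intro x hx; rw [hcast]; exact (Finset.mem_filter.1 hx).2
  have c3 : (Λ.biUnion f).card ≤ Λ.card * 65 ^ (16 ^ K) := by
    apply Finset.card_biUnion_le_card_mul
    rintro ⟨k, s⟩ hl
    have hk : k < K := Finset.mem_range.1 (Finset.mem_product.1 hl).1
    have h1 : (f (k, s)).card ≤ 41664 ^ (4 * 16 ^ k) := by
      apply clique_short (16 ^ K) k s (h.mono (Finset.filter_subset _ _))
      intro x hx; exact (Finset.mem_filter.1 hx).2
    refine h1.trans ?_
    calc 41664 ^ (4 * 16 ^ k) ≤ (65 ^ 4) ^ (4 * 16 ^ k) :=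
          Nat.pow_le_pow_left (by norm_num) _
      _ = 65 ^ (16 ^ (k + 1)) := by rw [← pow_mul]; congr 1; ring
      _ ≤ 65 ^ (16 ^ K) := by
          apply Nat.pow_le_pow_right (by norm_num)
          exact Nat.pow_le_pow_right (by norm_num) hk
  have c4 : Λ.card = K * (2 * 16 ^ K) := by
    rw [Finset.card_product, Finset.card_range, Int.card_Ico]
    congr 1
    rw [show (16 ^ K - -16 ^ K : ℤ) = ((2 * 16 ^ K : ℕ) : ℤ) by push_cast; ring]
    exact Int.toNat_natCast _
  calc S.card ≤ (S1 ∪ S2 ∪ Λ.biUnion f).card := Finset.card_le_card hsub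
    _ ≤ (S1.card + S2.card) + (Λ.biUnion f).card :=
        (Finset.card_union_le _ _).trans (Nat.add_le_add_right (Finset.card_union_le _ _) _)
    _ ≤ (65 ^ (16 ^ K) + 65 ^ (16 ^ K)) + (K * (2 * 16 ^ K)) * 65 ^ (16 ^ K) := by
        rw [← c4]; gcongr
    _ = _ := by ring

/-- A crude bound valid for all windows. -/
theorem clique_crude (n : ℕ) (S : Finset (ℤ → Lt VV)) (h : Clique n S) :
    S.card ≤ (Fintype.card (Lt VV)) ^ n := by
  classical
  let f : S → (Fin n → Lt VV) := fun x i => (x : ℤ → Lt VV) (i : ℕ)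
  have hf : Function.Injective f := by
    intro x y hxy
    by_contra hne
    obtain ⟨j, h0, h1, h2⟩ := h x x.2 y y.2 (fun e => hne (Subtype.ext e))
    obtain ⟨m, rfl⟩ := Int.eq_ofNat_of_zero_le h0
    have h3 : (x : ℤ → Lt VV) (m : ℤ) = (y : ℤ → Lt VV) (m : ℤ) :=
      congrFun hxy ⟨m, by exact_mod_cast h1⟩
    rw [h3] at h2
    exact rel_irrefl _ h2
  have h4 := Fintype.card_le_of_injective f hf
  rwa [Fintype.card_fun, Fintype.card_fin, Fintype.card_coe] at h4

/-- extension of a finite word -/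
noncomputable def extw {N : ℕ} (w : Fin N → VV) : ℕ → VV := fun i =>
  if h : i < N then w ⟨i, h⟩ else default

lemma gen_a {V : Type} {k : ℕ} (w : ℕ → V) {i : ℕ} (hi : i < 4 * 16 ^ k) :
    gen k w (i : ℤ) = .a (w i) := by
  rw [gen, if_pos ⟨by positivity, by exact_mod_cast hi⟩, Int.toNat_natCast]

lemma gen_b {V : Type} {k : ℕ} (w : ℕ → V) {i : ℕ} (hi : i < 4 * 16 ^ k) :
    gen k w ((5 * 16 ^ k + i : ℕ) : ℤ) = .b (w i) := by
  rw [gen, if_neg, if_pos]
  · congr 2
    push_cast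
    rw [add_sub_cancel_left, Int.toNat_natCast]
  · push_cast
    have : (i : ℤ) < 4 * 16 ^ k := by exact_mod_cast hi
    constructor <;> linarith [Int.natCast_nonneg i]
  · rintro ⟨-, h⟩
    push_cast at h
    have h0 : (0 : ℤ) < 16 ^ k := by positivity
    linarith [Int.natCast_nonneg i]

theorem clique_lower (k : ℕ) : ∃ S : Finset (ℤ → Lt VV), (∀ x ∈ S, x ∈ X VV) ∧
    Clique (9 * 16 ^ k) S ∧ S.card = 41664 ^ (4 * 16 ^ k) := by
  classical
  have hinj : Function.Injective (fun w : Fin (4 * 16 ^ k) → VV => gen k (extw w)) := by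
    intro w w' h
    funext i
    have h1 : gen k (extw w) ((i : ℕ) : ℤ) = gen k (extw w') ((i : ℕ) : ℤ) := congrFun h _
    rw [gen_a _ i.2, gen_a _ i.2] at h1
    have h2 := Lt.a.inj h1
    rw [extw, extw, dif_pos i.2, dif_pos i.2] at h2
    exact h2
  refine ⟨Finset.univ.image (fun w : Fin (4 * 16 ^ k) → VV => gen k (extw w)), ?_, ?_, ?_⟩
  · intro x hx
    obtain ⟨w, -, rfl⟩ := Finset.mem_image.1 hx
    exact gen_mem _ _
  · intro x hx y hy hxy
    obtain ⟨w, -, rfl⟩ := Finset.mem_image.1 hx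
    obtain ⟨w', -, rfl⟩ := Finset.mem_image.1 hy
    have hne : w ≠ w' := by rintro rfl; exact hxy rfl
    obtain ⟨i, hi⟩ := Function.ne_iff.1 hne
    have e1 : extw w i = w i := by rw [extw, dif_pos i.2]
    have e2 : extw w' i = w' i := by rw [extw, dif_pos i.2]
    have hi2 : ((i : ℕ) : ℤ) < 4 * 16 ^ k := by exact_mod_cast i.2
    have h0 : (0 : ℤ) < 16 ^ k := by positivity
    rcases rel_cover hi with h1 | h1
    · refine ⟨(i : ℕ), by positivity, by linarith, ?_⟩
      rw [gen_a _ i.2, gen_a _ i.2, e1, e2]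
      exact h1
    · refine ⟨((5 * 16 ^ k + (i : ℕ) : ℕ) : ℤ), by positivity, by push_cast; linarith, ?_⟩
      rw [gen_b _ i.2, gen_b _ i.2, e1, e2]
      exact h1
  · rw [Finset.card_image_of_injective _ hinj, Finset.card_univ, Fintype.card_fun,
      Fintype.card_fin, card_VV]

end FlowEntropy
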