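import Pool.Agent.Helper98.Flow.Sect
import Pool.Agent.Helper98.Flow.Sub

open Set Filter Topology
open scoped Manifold ContDiff

set_option linter.unusedSectionVars false

namespace FlowEntropy
open TorusFlow

/-- The parameter used. -/
noncomputable abbrev κ : ℝ := KK (Lt VV)

/-- The basic relation, on the section. -/
def R : Set (T3 × T3) :=
  (fun q : (ℤ → Lt VV) × (ℤ → Lt VV) => (((1 : Circle), pp q.1), ((1 : Circle), pp q.2))) ''
    {q | q.1 ∈ X VV ∧ q.2 ∈ X VV ∧ rel (q.1 0) (q.2 0)}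

lemma isClosed_R : IsClosed R := by
  have h1 : IsClosed {q : (ℤ → Lt VV) × (ℤ → Lt VV) |
      q.1 ∈ X VV ∧ q.2 ∈ X VV ∧ rel (q.1 0) (q.2 0)} := by
    have a1 : IsClosed {q : (ℤ → Lt VV) × (ℤ → Lt VV) | q.1 ∈ X VV} :=
      isClosed_X.preimage continuous_fst
    have a2 : IsClosed {q : (ℤ → Lt VV) × (ℤ → Lt VV) | q.2 ∈ X VV} :=
      isClosed_X.preimage continuous_snd
    have a3 : IsClosed {q : (ℤ → Lt VV) × (ℤ → Lt VV) | rel (q.1 0) (q.2 0)} := by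
      have c : Continuous (fun q : (ℤ → Lt VV) × (ℤ → Lt VV) => (q.1 0, q.2 0)) := by fun_prop
      exact (isClosed_discrete {p : Lt VV × Lt VV | rel p.1 p.2}).preimage c
    exact a1.inter (a2.inter a3)
  have h2 : Continuous (fun q : (ℤ → Lt VV) × (ℤ → Lt VV) =>
      (((1 : Circle), pp q.1), ((1 : Circle), pp q.2))) :=
    (continuous_const.prodMk (continuous_pp.comp continuous_fst)).prodMk
      (continuous_const.prodMk (continuous_pp.comp continuous_snd))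
  exact (h1.isCompact.image h2).isClosed

lemma R_symm : ∀ x y, (x, y) ∈ R → (y, x) ∈ R := by
  rintro _ _ ⟨⟨u, v⟩, ⟨h1, h2, h3⟩, h⟩
  have e1 := congrArg Prod.fst h
  have e2 := congrArg Prod.snd h
  simp only at e1 e2
  refine ⟨(v, u), ⟨h2, h1, rel_symm h3⟩, ?_⟩
  simp only
  rw [← e1, ← e2]

lemma R_iff {p q : T3} : (p, q) ∈ R ↔ ∃ u ∈ X VV, ∃ v ∈ X VV, rel (u 0) (v 0) ∧
    p = ((1 : Circle), pp u) ∧ q = ((1 : Circle), pp v) := by
  constructor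
  · rintro ⟨⟨u, v⟩, ⟨h1, h2, h3⟩, h⟩
    exact ⟨u, h1, v, h2, h3, (congrArg Prod.fst h).symm, (congrArg Prod.snd h).symm⟩
  · rintro ⟨u, h1, v, h2, h3, rfl, rfl⟩
    exact ⟨(u, v), ⟨h1, h2, h3⟩, rfl⟩

lemma R_irrefl : ∀ x, (x, x) ∉ R := by
  intro x h
  obtain ⟨u, -, v, -, h3, rfl, h4⟩ := R_iff.1 h
  have h5 : pp u = pp v := congrArg Prod.snd h4
  rw [pp_inj h5] at h3
  exact rel_irrefl _ h3

lemma flow_sec_pp (m : ℤ) (x : ℤ → Lt VV) :
    flow κ m ((1 : Circle), pp x) = ((1 : Circle), pp (shn m x)) := by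
  rw [flow_sec_int, Fp_zpow_pp]

/-- `T`-separated sets. -/
def FSep (T : ℝ) (S : Finset T3) : Prop :=
  ∀ x ∈ S, ∀ y ∈ S, x ≠ y → ∃ t ∈ Icc 0 T, (flow κ t x, flow κ t y) ∈ R

theorem upper_transfer {T : ℝ} (S : Finset T3) (hS : FSep T S) (hc : 2 ≤ S.card) :
    ∃ S' : Finset (ℤ → Lt VV), S'.card = S.card ∧ (∀ x ∈ S', x ∈ X VV) ∧
      Clique (⌊T⌋ + 1) S' := by
  classical
  obtain ⟨x0, hx0⟩ : S.Nonempty := Finset.card_pos.1 (by omega)
  have hsec : ∀ x ∈ S, ∀ y ∈ S, x ≠ y → ∃ t ∈ Icc 0 T, ∃ u ∈ X VV, ∃ v ∈ X VV,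
      rel (u 0) (v 0) ∧ flow κ t x = ((1 : Circle), pp u) ∧
      flow κ t y = ((1 : Circle), pp v) := by
    intro x hx y hy hxy
    obtain ⟨t, ht, h⟩ := hS x hx y hy hxy
    exact ⟨t, ht, R_iff.1 h⟩
  have hθ : ∀ x ∈ S, x.1 = x0.1 := by
    intro x hx
    by_cases h : x = x0
    · rw [h]
    · obtain ⟨t, -, u, -, v, -, -, h1, h2⟩ := hsec x hx x0 hx0 h
      have h3 : x.1 * Circle.exp (2 * Real.pi * t) = 1 := by
        rw [← flow_fst κ t x, h1]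
      have h4 : x0.1 * Circle.exp (2 * Real.pi * t) = 1 := by
        rw [← flow_fst κ t x0, h2]
      exact mul_right_cancel (h3.trans h4.symm)
  obtain ⟨τ, hτ0, hτ1, hτ⟩ := exists_phase x0.1
  have htime : ∀ x ∈ S, ∀ t ∈ Icc 0 T, ∀ p : T2, flow κ t x = ((1 : Circle), p) →
      ∃ m : ℤ, 0 ≤ m ∧ m < ⌊T⌋ + 1 ∧ t = τ + m := by
    intro x hx t ht p h
    have h3 : x0.1 * Circle.exp (2 * Real.pi * t) = 1 := by
      rw [← hθ x hx, ← flow_fst κ t x, h]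
    obtain ⟨m, hm⟩ := time_int hτ h3
    refine ⟨m, ?_, ?_, hm⟩
    · have h4 : (-1 : ℝ) < m := by linarith [ht.1]
      have h5 : (-1 : ℤ) < m := by exact_mod_cast h4
      omega
    · have h4 : (m : ℝ) ≤ T := by linarith [ht.2]
      have h5 : m ≤ ⌊T⌋ := Int.le_floor.2 h4
      omega
  have hstep : ∀ (m : ℤ) (x : T3), flow κ (τ + m) x = flow κ m (flow κ τ x) := by
    intro m x
    rw [← flow_add]
    congr 1
    ring
  have hexist : ∀ x ∈ S, ∃ z, z ∈ X VV ∧ flow κ τ x = ((1 : Circle), pp z) := by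
    intro x hx
    obtain ⟨y, hy, hxy⟩ : ∃ y ∈ S, x ≠ y := by
      by_contra hcon
      push Not at hcon
      have h1 : S ⊆ {x} := fun y hy => Finset.mem_singleton.2 (hcon y hy).symm
      have := Finset.card_le_card h1
      rw [Finset.card_singleton] at this
      omega
    obtain ⟨t, ht, u, hu, v, hv, -, h1, -⟩ := hsec x hx y hy hxy
    obtain ⟨m, -, -, hm⟩ := htime x hx t ht _ h1
    refine ⟨shn (-m) u, shn_mem _ hu, ?_⟩
    rw [← flow_sec_pp, ← h1, hm, hstep]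
    push_cast
    rw [flow_neg_flow]
  haveI : Nonempty (Lt VV) := ⟨.bl⟩
  choose! f hf using hexist
  have hinj : ∀ x ∈ S, ∀ y ∈ S, f x = f y → x = y := by
    intro x hx y hy h
    apply flow_inj κ τ
    rw [(hf x hx).2, (hf y hy).2, h]
  refine ⟨S.image f, Finset.card_image_of_injOn (fun x hx y hy h => hinj x hx y hy h), ?_, ?_⟩
  · intro z hz
    obtain ⟨x, hx, rfl⟩ := Finset.mem_image.1 hz
    exact (hf x hx).1
  · intro z hz z' hz' hne
    obtain ⟨x, hx, rfl⟩ := Finset.mem_image.1 hz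
    obtain ⟨y, hy, rfl⟩ := Finset.mem_image.1 hz'
    have hxy : x ≠ y := by rintro rfl; exact hne rfl
    obtain ⟨t, ht, u, hu, v, hv, hr, h1, h2⟩ := hsec x hx y hy hxy
    obtain ⟨m, hm0, hm1, hm⟩ := htime x hx t ht _ h1
    refine ⟨m, hm0, hm1, ?_⟩
    rw [hm, hstep, (hf x hx).2, flow_sec_pp] at h1
    rw [hm, hstep, (hf y hy).2, flow_sec_pp] at h2
    have e1 : shn m (f x) = u := pp_inj (congrArg Prod.snd h1)
    have e2 : shn m (f y) = v := pp_inj (congrArg Prod.snd h2)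
    rw [← e1, ← e2] at hr
    simpa [shn] using hr

theorem lower_transfer {T : ℝ} (n : ℤ) (hn : (n : ℝ) ≤ T + 1) (S' : Finset (ℤ → Lt VV))
    (hX : ∀ x ∈ S', x ∈ X VV) (hcl : Clique n S') :
    ∃ S : Finset T3, S.card = S'.card ∧ FSep T S := by
  classical
  have hinj : Function.Injective (fun x : ℤ → Lt VV => (((1 : Circle), pp x) : T3)) := by
    intro x y h
    exact pp_inj (congrArg Prod.snd h)
  refine ⟨S'.image (fun x => (((1 : Circle), pp x) : T3)),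
    Finset.card_image_of_injective _ hinj, ?_⟩
  intro p hp q hq hpq
  obtain ⟨x, hx, rfl⟩ := Finset.mem_image.1 hp
  obtain ⟨y, hy, rfl⟩ := Finset.mem_image.1 hq
  have hxy : x ≠ y := by rintro rfl; exact hpq rfl
  obtain ⟨j, h0, h1, h2⟩ := hcl x hx y hy hxy
  refine ⟨(j : ℝ), ⟨by exact_mod_cast h0, ?_⟩, ?_⟩
  · have : (j : ℝ) + 1 ≤ n := by exact_mod_cast (by omega : j + 1 ≤ n)
    linarith
  · rw [flow_sec_pp, flow_sec_pp]
    refine R_iff.2 ⟨_, shn_mem j (hX x hx), _, shn_mem j (hX y hy), ?_, rfl, rfl⟩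
    simpa [shn] using h2

lemma R_nonempty : R.Nonempty := by
  obtain ⟨S, h1, h2, h3⟩ := clique_lower 0
  have h4 : 1 < S.card := by rw [h3]; norm_num
  obtain ⟨x, hx, y, hy, hxy⟩ := Finset.one_lt_card.1 h4
  obtain ⟨j, -, -, hr⟩ := h2 x hx y hy hxy
  refine ⟨(((1 : Circle), pp (shn j x)), ((1 : Circle), pp (shn j y))), ?_⟩
  refine R_iff.2 ⟨_, shn_mem j (h1 x hx), _, shn_mem j (h1 y hy), ?_, rfl, rfl⟩
  simpa [shn] using hr

section
variable {D : T3 → T3 → ℝ} (hDc : Continuous (fun p : T3 × T3 => D p.1 p.2))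
  (hDR : ∀ x y, 1 ≤ D x y ↔ (x, y) ∈ R)
include hDc hDR

lemma mem_sepSizes {T : ℝ} (hT : 0 ≤ T) (n : ℕ) :
    n ∈ sepSizes (flow κ) D 1 T ↔ ∃ S : Finset T3, S.card = n ∧ FSep T S := by
  have h : ∀ x y, 1 ≤ flowDist (flow κ) D T x y ↔
      ∃ t ∈ Icc 0 T, (flow κ t x, flow κ t y) ∈ R := by
    intro x y
    rw [one_le_flowDist (flow_continuous_left κ) hDc hT]
    simp only [hDR]
  unfold sepSizes FSep
  simp only [Set.mem_setOf_eq, h]

lemma sep_bdd {T : ℝ} (hT : 0 ≤ T) : BddAbove (sepSizes (flow κ) D 1 T) := by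
  refine ⟨max 1 (Fintype.card (Lt VV) ^ (⌊T⌋ + 1).toNat), ?_⟩
  intro n hn
  obtain ⟨S, rfl, hS⟩ := (mem_sepSizes hDc hDR hT n).1 hn
  rcases le_or_gt S.card 1 with h | h
  · exact h.trans (le_max_left _ _)
  · obtain ⟨S', h1, h2, h3⟩ := upper_transfer S hS h
    rw [← h1]
    refine le_trans ?_ (le_max_right _ _)
    apply clique_crude
    have h4 : 0 ≤ ⌊T⌋ := Int.floor_nonneg.2 hT
    rwa [Int.toNat_of_nonneg (by omega)]

lemma sep_mem {T : ℝ} (hT : 0 ≤ T) :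
    sep (flow κ) D 1 T ∈ sepSizes (flow κ) D 1 T := by
  apply Nat.sSup_mem _ (sep_bdd hDc hDR hT)
  refine ⟨0, ∅, rfl, ?_⟩
  simp

lemma sep_le (K : ℕ) : sep (flow κ) D 1 (16 ^ K - 1) ≤
    (2 * 16 ^ K * K + 2) * 65 ^ (16 ^ K) := by
  have hT : (0 : ℝ) ≤ 16 ^ K - 1 := by
    have : (1 : ℝ) ≤ 16 ^ K := one_le_pow₀ (by norm_num)
    linarith
  obtain ⟨S, hc, hS⟩ := (mem_sepSizes hDc hDR hT _).1 (sep_mem hDc hDR hT)
  rw [← hc]
  rcases le_or_gt S.card 1 with h | h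
  · refine h.trans (Nat.one_le_iff_ne_zero.2 (by positivity))
  · obtain ⟨S', h1, h2, h3⟩ := upper_transfer S hS h
    rw [← h1]
    apply clique_upper K S' h2
    have e : ⌊(16 : ℝ) ^ K - 1⌋ + 1 = 16 ^ K := by
      have : ((16 : ℝ) ^ K - 1) = (((16 ^ K - 1 : ℤ)) : ℝ) := by push_cast; rfl
      rw [this, Int.floor_intCast]
      ring
    rwa [e] at h3

lemma le_sep (k : ℕ) : 41664 ^ (4 * 16 ^ k) ≤ sep (flow κ) D 1 (9 * 16 ^ k - 1) := by
  have hT : (0 : ℝ) ≤ 9 * 16 ^ k - 1 := by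
    have : (1 : ℝ) ≤ 16 ^ k := one_le_pow₀ (by norm_num)
    linarith
  obtain ⟨S', h1, h2, h3⟩ := clique_lower k
  obtain ⟨S, h4, h5⟩ := lower_transfer (T := 9 * 16 ^ k - 1) (9 * 16 ^ k)
    (by push_cast; linarith) S' h1 h2
  rw [← h3, ← h4]
  exact le_csSup (sep_bdd hDc hDR hT) ((mem_sepSizes hDc hDR hT _).2 ⟨S, rfl, h5⟩)

end

end FlowEntropy
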