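import Pool.Agent.Helper98.Flow.Sep
import Pool.Agent.Helper98.Flow.Gap

open Set Filter Topology
open scoped Manifold ContDiff

namespace FlowEntropy
open TorusFlow

lemma log_num : Real.log 65 < 4 / 9 * Real.log 41664 := by
  have h : (9 : ℝ) * Real.log 65 < 4 * Real.log 41664 := by
    have h1 : Real.log ((65 : ℝ) ^ 9) < Real.log ((41664 : ℝ) ^ 4) :=
      Real.log_lt_log (by positivity) (by norm_num)
    rw [Real.log_pow, Real.log_pow] at h1
    exact_mod_cast h1
  linarith

lemma poly_bound (K : ℕ) : Real.log (((2 * 16 ^ K * K + 2) * 65 ^ (16 ^ K) : ℕ) : ℝ) ≤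
    Real.log 4 + (2 : ℕ) * Real.log (16 ^ K) + Real.log 65 * 16 ^ K := by
  have hK : (K : ℝ) ≤ 16 ^ K := by
    have : K < 16 ^ K := Nat.lt_pow_self (by norm_num)
    exact_mod_cast this.le
  have h1 : (1 : ℝ) ≤ 16 ^ K := one_le_pow₀ (by norm_num)
  push_cast
  have h2 : (2 * 16 ^ K * (K : ℝ) + 2) ≤ 4 * (16 ^ K) ^ 2 := by nlinarith
  have h3 : Real.log ((2 * 16 ^ K * (K : ℝ) + 2) * 65 ^ (16 ^ K)) ≤
      Real.log (4 * (16 ^ K) ^ 2 * 65 ^ (16 ^ K)) := by
    apply Real.log_le_log (by positivity)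
    gcongr
  refine h3.trans (le_of_eq ?_)
  have e1 : Real.log (((16 : ℝ) ^ K) ^ 2) = 2 * Real.log (16 ^ K) := by
    rw [Real.log_pow]; push_cast; ring
  have e2 : Real.log ((65 : ℝ) ^ (16 ^ K)) = Real.log 65 * 16 ^ K := by
    rw [Real.log_pow]; push_cast; ring
  rw [Real.log_mul (by positivity) (by positivity), Real.log_mul (by positivity) (by positivity),
    e1, e2]

theorem sep_gap {D : T3 → T3 → ℝ} (hDc : Continuous (fun p : T3 × T3 => D p.1 p.2))
    (hDR : ∀ x y, 1 ≤ D x y ↔ (x, y) ∈ R) :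
    liminf (fun T : ℝ => ((Real.log (sep (flow κ) D 1 T) / T : ℝ) : EReal)) atTop <
      limsup (fun T : ℝ => ((Real.log (sep (flow κ) D 1 T) / T : ℝ) : EReal)) atTop := by
  obtain ⟨c1, hc1, hc2⟩ := exists_between log_num
  have hlog65 : 0 ≤ Real.log 65 := Real.log_nonneg (by norm_num)
  have hlog : 0 ≤ Real.log 41664 := Real.log_nonneg (by norm_num)
  refine gap_of_frequently (f := fun T => Real.log (sep (flow κ) D 1 T) / T) hc2 ?_ ?_
  · have h1 : Tendsto (fun K : ℕ => (16 : ℝ) ^ K - 1) atTop atTop :=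
      tendsto_atTop_add_const_right _ _ (tendsto_pow_atTop_atTop_of_one_lt (by norm_num))
    apply h1.frequently
    apply Eventually.frequently
    have h2 := eventually_rate (s := fun K => (2 * 16 ^ K * K + 2) * 65 ^ (16 ^ K)) hlog65 hc1
      (Real.log 4) (p := 2) poly_bound
    filter_upwards [h2] with K hK
    refine le_trans ?_ hK
    have h3 : (1 : ℝ) ≤ 16 ^ K := one_le_pow₀ (by norm_num)
    rcases (sub_nonneg.2 h3).eq_or_lt with h4 | h4
    · rw [← h4]; simp
    · refine div_le_div_of_nonneg_right ?_ h4.le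
      rcases Nat.eq_zero_or_pos (sep (flow κ) D 1 (16 ^ K - 1)) with h5 | h5
      · rw [h5]
        simp only [Nat.cast_zero, Real.log_zero]
        apply Real.log_nonneg
        have h6 : 1 ≤ (2 * 16 ^ K * K + 2) * 65 ^ (16 ^ K) :=
          Nat.one_le_iff_ne_zero.2 (by positivity)
        exact_mod_cast h6
      · apply Real.log_le_log (by exact_mod_cast h5)
        exact_mod_cast sep_le hDc hDR K
  · have h1 : Tendsto (fun K : ℕ => 9 * (16 : ℝ) ^ K - 1) atTop atTop :=
      tendsto_atTop_add_const_right _ _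
        (Tendsto.const_mul_atTop (by norm_num) (tendsto_pow_atTop_atTop_of_one_lt (by norm_num)))
    apply h1.frequently
    apply Eventually.frequently
    filter_upwards with K
    have h3 : (1 : ℝ) ≤ 16 ^ K := one_le_pow₀ (by norm_num)
    rw [le_div_iff₀ (by linarith)]
    have h4 : Real.log ((41664 : ℝ) ^ (4 * 16 ^ K)) ≤
        Real.log (sep (flow κ) D 1 (9 * 16 ^ K - 1)) := by
      apply Real.log_le_log (by positivity)
      exact_mod_cast le_sep hDc hDR K
    refine le_trans ?_ h4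
    rw [Real.log_pow]
    push_cast
    nlinarith

theorem sep_main : ∃ (φ : ℝ → Torus3 → Torus3) (D : Torus3 → Torus3 → ℝ),
    SmoothFlow ((𝓡 1).prod ((𝓡 1).prod (𝓡 1))) φ ∧ CompatibleMetric Torus3 D ∧
    (∀ T > 0, IsGreatest (sepSizes φ D 1 T) (sep φ D 1 T)) ∧
    liminf (fun T : ℝ => ((Real.log (sep φ D 1 T) / T : ℝ) : EReal)) atTop <
      limsup (fun T : ℝ => ((Real.log (sep φ D 1 T) / T : ℝ) : EReal)) atTop := by
  obtain ⟨D, h1, h2, h3⟩ := exists_metric (M := Torus3) isClosed_R R_symm R_nonempty R_irrefl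
  exact ⟨flow κ, D, flow_smoothFlow _, h1, fun T hT => ⟨sep_mem h2 h3 hT.le,
    fun n hn => le_csSup (sep_bdd h2 h3 hT.le) hn⟩, sep_gap h2 h3⟩

end FlowEntropy
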