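import Pool.Agent.Helper98.Flow.Circ

open Set Filter Topology
open scoped Manifold ContDiff

set_option linter.unusedSectionVars false

namespace TorusFlow

/-- Model of the 2-torus. -/
noncomputable abbrev I2 := (𝓡 1).prod (𝓡 1)
/-- Model of the 3-torus. -/
noncomputable abbrev I3 := (𝓡 1).prod ((𝓡 1).prod (𝓡 1))

instance : LieGroup (𝓡 1) ∞ Circle := LieGroup.of_le (n := ω) (by exact le_top)

attribute [local instance] finrank_real_complex_fact'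

lemma smooth_im : ContMDiff (𝓡 1) 𝓘(ℝ, ℝ) ∞ (fun z : Circle => (z : ℂ).im) := by
  have h1 : ContMDiff (𝓡 1) 𝓘(ℝ, ℂ) ∞ (fun z : Circle => (z : ℂ)) := contMDiff_coe_sphere
  exact (Complex.imCLM.contDiff (n := ∞)).contMDiff.comp h1

lemma smooth_S (K : ℝ) :
    ContMDiff (𝓘(ℝ, ℝ).prod I2) I2 ∞ (fun q : ℝ × T2 => shS K q.1 q.2) := by
  have h0 : ContMDiff (𝓘(ℝ, ℝ).prod I2) 𝓘(ℝ, ℝ) ∞
      (fun q : ℝ × T2 => q.1 * (K * (q.2.2 : ℂ).im)) := by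
    have h1 : ContMDiff (𝓘(ℝ, ℝ).prod I2) 𝓘(ℝ, ℝ) ∞ (fun q : ℝ × T2 => (q.2.2 : ℂ).im) :=
      smooth_im.comp (contMDiff_snd.comp contMDiff_snd)
    exact contMDiff_fst.mul (contMDiff_const.mul h1)
  have h2 : ContMDiff (𝓘(ℝ, ℝ).prod I2) (𝓡 1) ∞
      (fun q : ℝ × T2 => q.2.1 * Circle.exp (q.1 * (K * (q.2.2 : ℂ).im))) :=
    (contMDiff_fst.comp contMDiff_snd).mul (contMDiff_circleExp.comp h0)
  exact h2.prodMk (contMDiff_snd.comp contMDiff_snd)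

lemma smooth_R (K : ℝ) :
    ContMDiff (𝓘(ℝ, ℝ).prod I2) I2 ∞ (fun q : ℝ × T2 => shR K q.1 q.2) := by
  have h0 : ContMDiff (𝓘(ℝ, ℝ).prod I2) 𝓘(ℝ, ℝ) ∞
      (fun q : ℝ × T2 => q.1 * (K * (q.2.1 : ℂ).im)) := by
    have h1 : ContMDiff (𝓘(ℝ, ℝ).prod I2) 𝓘(ℝ, ℝ) ∞ (fun q : ℝ × T2 => (q.2.1 : ℂ).im) :=
      smooth_im.comp (contMDiff_fst.comp contMDiff_snd)
    exact contMDiff_fst.mul (contMDiff_const.mul h1)
  have h2 : ContMDiff (𝓘(ℝ, ℝ).prod I2) (𝓡 1) ∞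
      (fun q : ℝ × T2 => q.2.2 * Circle.exp (q.1 * (K * (q.2.1 : ℂ).im))) :=
    (contMDiff_snd.comp contMDiff_snd).mul (contMDiff_circleExp.comp h0)
  exact (contMDiff_fst.comp contMDiff_snd).prodMk h2

lemma smooth_aa : ContMDiff 𝓘(ℝ, ℝ) 𝓘(ℝ, ℝ) ∞ aa := by
  have : ContDiff ℝ ∞ aa := Real.smoothTransition.contDiff.comp (by fun_prop)
  exact this.contMDiff

lemma smooth_bb : ContMDiff 𝓘(ℝ, ℝ) 𝓘(ℝ, ℝ) ∞ bb := by
  have : ContDiff ℝ ∞ bb := Real.smoothTransition.contDiff.comp (by fun_prop)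
  exact this.contMDiff

lemma smooth_Q (K : ℝ) :
    ContMDiff (𝓘(ℝ, ℝ).prod I2) I2 ∞ (fun q : ℝ × T2 => Qp K q.1 q.2) := by
  have h1 : ContMDiff (𝓘(ℝ, ℝ).prod I2) I2 ∞ (fun q : ℝ × T2 => shS K (aa q.1) q.2) :=
    (smooth_S K).comp ((smooth_aa.comp contMDiff_fst).prodMk contMDiff_snd)
  exact (smooth_R K).comp ((smooth_bb.comp contMDiff_fst).prodMk h1)

lemma smooth_Qi (K : ℝ) :
    ContMDiff (𝓘(ℝ, ℝ).prod I2) I2 ∞ (fun q : ℝ × T2 => (Qp K q.1)⁻¹ q.2) := by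
  have h1 : ContMDiff (𝓘(ℝ, ℝ).prod I2) I2 ∞ (fun q : ℝ × T2 => shR K (-(bb q.1)) q.2) :=
    (smooth_R K).comp ((smooth_bb.comp contMDiff_fst).neg.prodMk contMDiff_snd)
  exact (smooth_S K).comp ((smooth_aa.comp contMDiff_fst).neg.prodMk h1)

lemma smooth_F (K : ℝ) : ContMDiff I2 I2 ∞ (fun p : T2 => Fp K p) := by
  have h := (smooth_Q K).comp ((contMDiff_const (c := (1 : ℝ))).prodMk contMDiff_id :
    ContMDiff I2 (𝓘(ℝ, ℝ).prod I2) ∞ (fun p : T2 => ((1 : ℝ), p)))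
  have e : (fun p : T2 => Fp K p) = (fun q : ℝ × T2 => Qp K q.1 q.2) ∘
      (fun p : T2 => ((1 : ℝ), p)) := by
    funext p
    simp only [Function.comp]
    rw [Qp_high K (by norm_num)]
  rw [e]; exact h

lemma smooth_Fi (K : ℝ) : ContMDiff I2 I2 ∞ (fun p : T2 => (Fp K)⁻¹ p) := by
  have h := (smooth_Qi K).comp ((contMDiff_const (c := (1 : ℝ))).prodMk contMDiff_id :
    ContMDiff I2 (𝓘(ℝ, ℝ).prod I2) ∞ (fun p : T2 => ((1 : ℝ), p)))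
  have e : (fun p : T2 => (Fp K)⁻¹ p) = (fun q : ℝ × T2 => (Qp K q.1)⁻¹ q.2) ∘
      (fun p : T2 => ((1 : ℝ), p)) := by
    funext p
    simp only [Function.comp]
    rw [Qp_high K (by norm_num)]
  rw [e]; exact h

lemma smooth_pow (K : ℝ) (n : ℕ) : ContMDiff I2 I2 ∞ (fun p : T2 => ((Fp K) ^ n) p) := by
  induction n with
  | zero => exact contMDiff_id
  | succ n ih =>
    rw [pow_succ']
    exact (smooth_F K).comp ih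

lemma smooth_powi (K : ℝ) (n : ℕ) : ContMDiff I2 I2 ∞ (fun p : T2 => ((Fp K)⁻¹ ^ n) p) := by
  induction n with
  | zero => exact contMDiff_id
  | succ n ih =>
    rw [pow_succ']
    exact (smooth_Fi K).comp ih

lemma smooth_zpow (K : ℝ) (n : ℤ) : ContMDiff I2 I2 ∞ (fun p : T2 => ((Fp K) ^ n) p) := by
  obtain ⟨m, rfl | rfl⟩ := n.eq_nat_or_neg
  · simpa using smooth_pow K m
  · have := smooth_powi K m
    rwa [inv_pow, ← zpow_natCast, ← zpow_neg] at this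

lemma near_mem (q₀ : ℝ × T2) (n : ℤ) (hn : n = ⌊q₀.1⌋) :
    ∀ᶠ q : ℝ × T2 in 𝓝 q₀, (n : ℝ) - 1 / 4 < q.1 ∧ q.1 < n + 5 / 4 := by
  have h2 := Int.floor_le q₀.1
  have h3 := Int.lt_floor_add_one q₀.1
  have c : Filter.Tendsto (fun q : ℝ × T2 => q.1) (𝓝 q₀) (𝓝 q₀.1) := continuous_fst.tendsto q₀
  rw [← hn] at h2 h3
  exact (c.eventually_const_lt (by linarith)).and (c.eventually_lt_const (by linarith))

lemma smooth_subc (c : ℝ) : ContMDiff (𝓘(ℝ, ℝ).prod I2) (𝓘(ℝ, ℝ).prod I2) ∞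
    (fun q : ℝ × T2 => ((q.1 - c, q.2) : ℝ × T2)) := by
  have h0 : ContDiff ℝ ∞ (fun s : ℝ => s - c) := by fun_prop
  have h1 : ContMDiff (𝓘(ℝ, ℝ).prod I2) 𝓘(ℝ, ℝ) ∞ (fun q : ℝ × T2 => q.1 - c) :=
    h0.contMDiff.comp contMDiff_fst
  exact h1.prodMk contMDiff_snd

lemma smooth_map (G : T2 → T2) (hG : ContMDiff I2 I2 ∞ G) :
    ContMDiff (𝓘(ℝ, ℝ).prod I2) (𝓘(ℝ, ℝ).prod I2) ∞
    (fun q : ℝ × T2 => ((q.1, G q.2) : ℝ × T2)) :=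
  contMDiff_fst.prodMk (hG.comp contMDiff_snd)

lemma smooth_QG (K c : ℝ) (G : T2 → T2) (hG : ContMDiff I2 I2 ∞ G) :
    ContMDiff (𝓘(ℝ, ℝ).prod I2) I2 ∞ (fun q : ℝ × T2 => Qp K (q.1 - c) (G q.2)) := by
  have h1 := (smooth_map G hG).comp (smooth_subc c)
  have e : (fun q : ℝ × T2 => Qp K (q.1 - c) (G q.2)) = (fun q : ℝ × T2 => Qp K q.1 q.2) ∘
      ((fun q : ℝ × T2 => ((q.1, G q.2) : ℝ × T2)) ∘
        (fun q : ℝ × T2 => ((q.1 - c, q.2) : ℝ × T2))) := by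
    funext q; simp only [Function.comp]
  rw [e]
  exact (smooth_Q K).comp h1

lemma smooth_QF (K : ℝ) (n : ℤ) :
    ContMDiff (𝓘(ℝ, ℝ).prod I2) I2 ∞
      (fun q : ℝ × T2 => Qp K (q.1 - n) ((Fp K ^ n) q.2)) :=
  smooth_QG K (n : ℝ) (fun p => (Fp K ^ n) p) (smooth_zpow K n)

lemma smooth_QGi (K c : ℝ) (G : T2 → T2) (hG : ContMDiff I2 I2 ∞ G) :
    ContMDiff (𝓘(ℝ, ℝ).prod I2) I2 ∞ (fun q : ℝ × T2 => G ((Qp K (q.1 - c))⁻¹ q.2)) := by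
  have h1 := (smooth_Qi K).comp (smooth_subc c)
  exact hG.comp h1

lemma smooth_QFi (K : ℝ) (n : ℤ) :
    ContMDiff (𝓘(ℝ, ℝ).prod I2) I2 ∞
      (fun q : ℝ × T2 => (Fp K ^ (-n)) ((Qp K (q.1 - n))⁻¹ q.2)) :=
  smooth_QGi K (n : ℝ) (fun p => (Fp K ^ (-n)) p) (smooth_zpow K (-n))

lemma smooth_P (K : ℝ) :
    ContMDiff (𝓘(ℝ, ℝ).prod I2) I2 ∞ (fun q : ℝ × T2 => Pp K q.1 q.2) := by
  refine fun q₀ => ?_
  obtain ⟨n, hn⟩ : ∃ n, n = ⌊q₀.1⌋ := ⟨_, rfl⟩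
  refine ContMDiffAt.congr_of_eventuallyEq ((smooth_QF K n).contMDiffAt) ?_
  filter_upwards [near_mem q₀ n hn] with q hq
  rw [Pp_local K n hq.1 hq.2, Equiv.Perm.mul_apply]

lemma smooth_Pi (K : ℝ) :
    ContMDiff (𝓘(ℝ, ℝ).prod I2) I2 ∞ (fun q : ℝ × T2 => (Pp K q.1)⁻¹ q.2) := by
  refine fun q₀ => ?_
  obtain ⟨n, hn⟩ : ∃ n, n = ⌊q₀.1⌋ := ⟨_, rfl⟩
  refine ContMDiffAt.congr_of_eventuallyEq ((smooth_QFi K n).contMDiffAt) ?_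
  filter_upwards [near_mem q₀ n hn] with q hq
  rw [Pp_local K n hq.1 hq.2, mul_inv_rev, zpow_neg, Equiv.Perm.mul_apply]

lemma smooth_log {z : ℂ} (hz : z ∈ Complex.slitPlane) :
    ContDiffAt ℝ ∞ (fun z : ℂ => Complex.arg z) z := by
  have h1 : ContDiffAt ℝ ∞ Complex.log z :=
    (Complex.contDiffAt_log hz (n := ∞)).restrict_scalars ℝ
  have h2 := (Complex.imCLM.contDiff (n := ∞)).contDiffAt.comp z h1
  refine h2.congr_of_eventuallyEq (Eventually.of_forall fun w => ?_)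
  simp [Complex.log_im]

lemma smooth_lift1 {θ : Circle} (h : (θ : ℂ) ∈ Complex.slitPlane) :
    ContMDiffAt (𝓡 1) 𝓘(ℝ, ℝ) ∞ lift1 θ := by
  have h1 : ContMDiffAt (𝓡 1) 𝓘(ℝ, ℂ) ∞ (fun z : Circle => (z : ℂ)) θ :=
    contMDiff_coe_sphere.contMDiffAt
  have h2 : ContMDiffAt (𝓡 1) 𝓘(ℝ, ℝ) ∞ (fun z : Circle => Complex.arg (z : ℂ)) θ :=
    (smooth_log h).contMDiffAt.comp θ h1
  exact h2.div_const _

lemma smooth_lift2 {θ : Circle} (h : (-θ : ℂ) ∈ Complex.slitPlane) :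
    ContMDiffAt (𝓡 1) 𝓘(ℝ, ℝ) ∞ lift2 θ := by
  have h1 : ContMDiffAt (𝓡 1) 𝓘(ℝ, ℂ) ∞ (fun z : Circle => -(z : ℂ)) θ :=
    (contMDiff_coe_sphere.contMDiffAt).neg
  have h2 : ContMDiffAt (𝓡 1) 𝓘(ℝ, ℝ) ∞ (fun z : Circle => Complex.arg (-(z : ℂ))) θ :=
    (smooth_log h).contMDiffAt.comp θ h1
  exact (h2.div_const _).add contMDiffAt_const

lemma smooth_flow_aux (K : ℝ) (τ : Circle → ℝ)
    (hτ : ∀ θ, Circle.exp (2 * Real.pi * τ θ) = θ) (p₀ : ℝ × T3)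
    (h : ContMDiffAt (𝓡 1) 𝓘(ℝ, ℝ) ∞ τ p₀.2.1) :
    ContMDiffAt (𝓘(ℝ, ℝ).prod I3) I3 ∞ (fun p : ℝ × T3 => flow K p.1 p.2) p₀ := by
  have c1 : ContMDiffAt (𝓘(ℝ, ℝ).prod I3) (𝓡 1) ∞ (fun p : ℝ × T3 => p.2.1) p₀ :=
    (contMDiff_fst.comp contMDiff_snd).contMDiffAt
  have c2 : ContMDiffAt (𝓘(ℝ, ℝ).prod I3) I2 ∞ (fun p : ℝ × T3 => p.2.2) p₀ :=
    (contMDiff_snd.comp contMDiff_snd).contMDiffAt
  have c3 : ContMDiffAt (𝓘(ℝ, ℝ).prod I3) 𝓘(ℝ, ℝ) ∞ (fun p : ℝ × T3 => τ p.2.1) p₀ :=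
    h.comp p₀ c1
  have c4 : ContMDiffAt (𝓘(ℝ, ℝ).prod I3) 𝓘(ℝ, ℝ) ∞ (fun p : ℝ × T3 => τ p.2.1 + p.1) p₀ :=
    c3.add contMDiffAt_fst
  have c5 : ContMDiffAt (𝓘(ℝ, ℝ).prod I3) I2 ∞
      (fun p : ℝ × T3 => (Pp K (τ p.2.1))⁻¹ p.2.2) p₀ :=
    ContMDiffAt.comp (x := p₀) (g := fun q : ℝ × T2 => (Pp K q.1)⁻¹ q.2)
      (f := fun p : ℝ × T3 => (τ p.2.1, p.2.2)) ((smooth_Pi K).contMDiffAt) (c3.prodMk c2)
  have c6 : ContMDiffAt (𝓘(ℝ, ℝ).prod I3) I2 ∞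
      (fun p : ℝ × T3 => Pp K (τ p.2.1 + p.1) ((Pp K (τ p.2.1))⁻¹ p.2.2)) p₀ :=
    ContMDiffAt.comp (x := p₀) (g := fun q : ℝ × T2 => Pp K q.1 q.2)
      (f := fun p : ℝ × T3 => (τ p.2.1 + p.1, (Pp K (τ p.2.1))⁻¹ p.2.2))
      ((smooth_P K).contMDiffAt) (c4.prodMk c5)
  have c7 : ContMDiffAt (𝓘(ℝ, ℝ).prod I3) 𝓘(ℝ, ℝ) ∞
      (fun p : ℝ × T3 => 2 * Real.pi * p.1) p₀ := by
    have h0 : ContDiff ℝ ∞ (fun s : ℝ => 2 * Real.pi * s) := by fun_prop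
    exact (h0.contMDiff.comp contMDiff_fst).contMDiffAt
  have c8 : ContMDiffAt (𝓘(ℝ, ℝ).prod I3) (𝓡 1) ∞
      (fun p : ℝ × T3 => Circle.exp (2 * Real.pi * p.1)) p₀ :=
    ContMDiffAt.comp (x := p₀) (g := fun s : ℝ => Circle.exp s)
      (f := fun p : ℝ × T3 => 2 * Real.pi * p.1) contMDiff_circleExp.contMDiffAt c7
  have c9 : ContMDiffAt (𝓘(ℝ, ℝ).prod I3) (𝓡 1) ∞
      (fun p : ℝ × T3 => p.2.1 * Circle.exp (2 * Real.pi * p.1)) p₀ := c1.mul c8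
  have c10 := c9.prodMk c6
  refine c10.congr_of_eventuallyEq (Eventually.of_forall fun p => ?_)
  exact flow_eq K p.1 p.2 (τ p.2.1) (hτ _)

theorem smooth_flow (K : ℝ) :
    ContMDiff (𝓘(ℝ, ℝ).prod I3) I3 ∞ (fun p : ℝ × T3 => flow K p.1 p.2) := by
  refine fun p₀ => ?_
  by_cases h : (p₀.2.1 : ℂ) ∈ Complex.slitPlane
  · exact smooth_flow_aux K lift1 exp_lift1 p₀ (smooth_lift1 h)
  · refine smooth_flow_aux K lift2 exp_lift2 p₀ (smooth_lift2 ?_)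
    rw [Complex.mem_slitPlane_iff] at h ⊢
    push Not at h
    left
    have h1 := h.1
    have h2 : (p₀.2.1 : ℂ) ≠ 0 := Circle.coe_ne_zero _
    rcases h1.lt_or_eq with h3 | h3
    · simpa using h3
    · exact absurd (Complex.ext h3 h.2) h2

end TorusFlow
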