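import Pool.Agent.Helper98.Flow.Sect
import Pool.Agent.Helper98.Flow.Sub

open Set Filter Topology
open scoped Manifold ContDiff

set_option linter.unusedSectionVars false

namespace FlowEntropy
open TorusFlow

/-- The letters for the spanning problem. -/
inductive L2 : Type
  | bl | a (v : Bool) | b (v : Bool) | al | be
  deriving DecidableEq, Fintype

instance : TopologicalSpace L2 := ⊥
instance : DiscreteTopology L2 := ⟨rfl⟩

/-- inclusion of letters -/
def inc : Lt Bool → L2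
  | .bl => .bl
  | .a v => .a v
  | .b v => .b v

/-- inclusion of sequences -/
def emb (x : ℤ → Lt Bool) : ℤ → L2 := fun n => inc (x n)

/-- constant sequences -/
def cst (l : L2) : ℤ → L2 := fun _ => l

/-- The subshift. -/
def X2 : Set (ℤ → L2) := emb '' (X Bool) ∪ {cst .al, cst .be}

lemma continuous_emb : Continuous emb :=
  continuous_pi fun n => (continuous_of_discreteTopology (f := inc)).comp (continuous_apply n)

lemma isCompact_X2 : IsCompact X2 := by
  apply IsCompact.union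
  · exact (isClosed_X.isCompact).image continuous_emb
  · exact (Set.toFinite _).isCompact

lemma cal_mem : cst .al ∈ X2 := Or.inr (Or.inl rfl)
lemma cbe_mem : cst .be ∈ X2 := Or.inr (Or.inr rfl)
lemma emb_mem {x : ℤ → Lt Bool} (hx : x ∈ X Bool) : emb x ∈ X2 := Or.inl ⟨x, hx, rfl⟩

lemma shn_mem2 {x : ℤ → L2} (m : ℤ) (hx : x ∈ X2) : shn m x ∈ X2 := by
  rcases hx with ⟨y, hy, rfl⟩ | rfl | rfl
  · exact emb_mem (shn_mem m hy)
  · exact cal_mem
  · exact cbe_mem

lemma eq_cal {x : ℤ → L2} (hx : x ∈ X2) (h : x 0 = .al) : x = cst .al := by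
  rcases hx with ⟨y, hy, rfl⟩ | rfl | rfl
  · exfalso
    simp only [emb] at h
    cases hy0 : y 0 <;> rw [hy0] at h <;> simp [inc] at h
  · rfl
  · simp [cst] at h

/-- half of the closeness relation -/
def pr : L2 → L2 → Prop
  | .al, .a _ => True
  | .al, .bl => True
  | .be, .b _ => True
  | .be, .bl => True
  | _, _ => False

/-- closeness of letters -/
def close (x y : L2) : Prop := x = y ∨ pr x y ∨ pr y x

lemma close_refl (x : L2) : close x x := Or.inl rfl
lemma close_symm {x y : L2} (h : close x y) : close y x := by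
  rcases h with h | h | h
  · exact Or.inl h.symm
  · exact Or.inr (Or.inr h)
  · exact Or.inr (Or.inl h)

lemma close_a {x : L2} {v : Bool} (h : close x (.a v)) : x = .a v ∨ x = .al := by
  rcases h with h | h | h
  · exact Or.inl h
  · cases x <;> simp_all [pr]
  · cases x <;> simp_all [pr]

lemma close_b {x : L2} {v : Bool} (h : close x (.b v)) : x ≠ .al := by
  rcases h with h | h | h
  · rw [h]; simp
  · rintro rfl; simp [pr] at h
  · rintro rfl; simp [pr] at h

lemma not_close_al_be : ¬ close .be .al := by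
  rintro (h | h | h)
  · simp at h
  · simp [pr] at h
  · simp [pr] at h

/-- The parameter. -/
noncomputable abbrev κ2 : ℝ := KK L2

/-- points of the section -/
noncomputable def sec (y : ℤ → L2) : T3 := ((1 : Circle), pp y)

lemma continuous_sec : Continuous sec := continuous_const.prodMk continuous_pp

lemma sec_inj : Function.Injective sec := fun _ _ h => pp_inj (congrArg Prod.snd h)

lemma flow_sec2 (m : ℤ) (x : ℤ → L2) : flow κ2 m (sec x) = sec (shn m x) := by
  rw [sec, flow_sec_int, Fp_zpow_pp, sec]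

lemma exists_gap : ∃ δ > 0, ∀ y ∈ X2, ∀ y' ∈ X2, y 0 ≠ y' 0 → δ ≤ dist (sec y) (sec y') := by
  have hcomp : IsCompact {q : (ℤ → L2) × (ℤ → L2) | q.1 ∈ X2 ∧ q.2 ∈ X2 ∧ q.1 0 ≠ q.2 0} := by
    have a1 : IsClosed {q : (ℤ → L2) × (ℤ → L2) | q.1 ∈ X2} :=
      isCompact_X2.isClosed.preimage continuous_fst
    have a2 : IsClosed {q : (ℤ → L2) × (ℤ → L2) | q.2 ∈ X2} :=
      isCompact_X2.isClosed.preimage continuous_snd
    have a3 : IsClosed {q : (ℤ → L2) × (ℤ → L2) | q.1 0 ≠ q.2 0} := by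
      have c : Continuous (fun q : (ℤ → L2) × (ℤ → L2) => (q.1 0, q.2 0)) := by fun_prop
      exact (isClosed_discrete {p : L2 × L2 | p.1 ≠ p.2}).preimage c
    exact (a1.inter (a2.inter a3)).isCompact
  have hne : {q : (ℤ → L2) × (ℤ → L2) | q.1 ∈ X2 ∧ q.2 ∈ X2 ∧ q.1 0 ≠ q.2 0}.Nonempty :=
    ⟨(cst .al, cst .be), cal_mem, cbe_mem, by simp [cst]⟩
  have hcont : Continuous (fun q : (ℤ → L2) × (ℤ → L2) => dist (sec q.1) (sec q.2)) :=
    (continuous_sec.comp continuous_fst).dist (continuous_sec.comp continuous_snd)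
  obtain ⟨⟨u, v⟩, ⟨h1, h2, h3⟩, hmin⟩ := hcomp.exists_isMinOn hne hcont.continuousOn
  refine ⟨dist (sec u) (sec v), dist_pos.2 fun h => h3 ?_, fun y hy y' hy' hne => ?_⟩
  · exact congrFun (sec_inj h) 0
  · exact isMinOn_iff.1 hmin (y, y') ⟨hy, hy', hne⟩

/-- thickened cylinder -/
def U (η : ℝ) (l : L2) : Set T3 := {m | ∃ y ∈ X2, y 0 = l ∧ dist m (sec y) < η}

lemma isOpen_U (η : ℝ) (l : L2) : IsOpen (U η l) := by
  have : U η l = ⋃ y ∈ {y | y ∈ X2 ∧ y 0 = l}, Metric.ball (sec y) η := by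
    ext m
    simp only [U, Set.mem_iUnion, Metric.mem_ball]
    constructor
    · rintro ⟨y, h1, h2, h3⟩; exact ⟨y, ⟨h1, h2⟩, h3⟩
    · rintro ⟨y, ⟨h1, h2⟩, h3⟩; exact ⟨y, h1, h2, h3⟩
  rw [this]
  exact isOpen_biUnion fun y _ => Metric.isOpen_ball

/-- The neighbourhood of a cylinder used in the relation. -/
def NN (η : ℝ) (l : L2) : Set T3 := {m | ∃ x, close x l ∧ m ∈ U η x}

lemma isOpen_NN (η : ℝ) (l : L2) : IsOpen (NN η l) := by
  have : NN η l = ⋃ x ∈ {x | close x l}, U η x := by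
    ext m
    simp only [NN, Set.mem_iUnion]
    constructor
    · rintro ⟨y, h1, h2⟩; exact ⟨y, h1, h2⟩
    · rintro ⟨y, h1, h2⟩; exact ⟨y, h1, h2⟩
  rw [this]
  exact isOpen_biUnion fun y _ => isOpen_U η y

/-- half of the relation -/
def R1 (η : ℝ) : Set (T3 × T3) := {q | ∃ y ∈ X2, q.2 = sec y ∧ q.1 ∉ NN η (y 0)}

/-- The relation for the spanning problem. -/
def R2 (η : ℝ) : Set (T3 × T3) := R1 η ∪ Prod.swap ⁻¹' (R1 η)

lemma isClosed_R1 (η : ℝ) : IsClosed (R1 η) := by
  have h : R1 η = ⋃ l : L2, ((NN η l)ᶜ ×ˢ (sec '' {y | y ∈ X2 ∧ y 0 = l})) := by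
    ext ⟨p, q⟩
    simp only [R1, Set.mem_iUnion, Set.mem_prod, Set.mem_image, Set.mem_compl_iff]
    constructor
    · rintro ⟨y, h1, h2, h3⟩
      exact ⟨y 0, h3, y, ⟨h1, rfl⟩, h2.symm⟩
    · rintro ⟨l, h3, y, ⟨h1, rfl⟩, h2⟩
      exact ⟨y, h1, h2.symm, h3⟩
  rw [h]
  refine isClosed_iUnion_of_finite fun l => ?_
  refine IsClosed.prod (isOpen_NN η l).isClosed_compl ?_
  have a3 : IsClosed {y : ℤ → L2 | y 0 = l} := by
    have c : Continuous (fun y : ℤ → L2 => y 0) := continuous_apply 0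
    exact (isClosed_discrete ({l} : Set L2)).preimage c
  exact ((isCompact_X2.inter_right a3).image continuous_sec).isClosed

lemma isClosed_R2 (η : ℝ) : IsClosed (R2 η) :=
  (isClosed_R1 η).union ((isClosed_R1 η).preimage continuous_swap)

lemma R2_symm (η : ℝ) : ∀ x y, (x, y) ∈ R2 η → (y, x) ∈ R2 η := by
  rintro x y (h | h)
  · exact Or.inr h
  · exact Or.inl h

lemma sec_mem_U {η : ℝ} (hη : 0 < η) {y : ℤ → L2} (hy : y ∈ X2) : sec y ∈ U η (y 0) :=
  ⟨y, hy, rfl, by rw [dist_self]; exact hη⟩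

lemma R2_irrefl {η : ℝ} (hη : 0 < η) : ∀ x, (x, x) ∉ R2 η := by
  have h1 : ∀ x, (x, x) ∉ R1 η := by
    rintro x ⟨y, hy, h1, h2⟩
    apply h2
    simp only at h1 ⊢
    rw [h1]
    exact ⟨y 0, close_refl _, sec_mem_U hη hy⟩
  rintro x (h | h)
  · exact h1 x h
  · exact h1 x h

/-- The data chosen for the thickness. -/
structure Good (η : ℝ) : Prop where
  pos : 0 < η
  disj : ∀ l l' m, m ∈ U η l → m ∈ U η l' → l = l'
  iso : ∀ m, m ∈ U η .al → ∀ l, flow κ2 1 m ∈ U η l → l = .al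

lemma exists_good : ∃ η, Good η := by
  obtain ⟨δ, hδ, hgap⟩ := exists_gap
  have hfix : flow κ2 1 (sec (cst .al)) = sec (cst .al) := by
    have := flow_sec2 1 (cst .al)
    rw [Int.cast_one] at this
    rw [this]; rfl
  have hcont : Continuous (fun m : T3 => flow κ2 1 m) :=
    (flow_continuous κ2).comp (continuous_const.prodMk continuous_id)
  obtain ⟨η1, hη1, h1⟩ := Metric.continuous_iff.1 hcont (sec (cst .al)) (δ / 2) (by positivity)
  refine ⟨min η1 (δ / 2), lt_min hη1 (by positivity), ?_, ?_⟩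
  · rintro l l' m ⟨y, hy, rfl, hd⟩ ⟨y', hy', rfl, hd'⟩
    by_contra hne
    have h2 := hgap y hy y' hy' hne
    have h3 : dist (sec y) (sec y') ≤ dist m (sec y) + dist m (sec y') :=
      dist_triangle_left _ _ _
    have h4 := hd.trans_le (min_le_right _ _)
    have h5 := hd'.trans_le (min_le_right _ _)
    linarith
  · rintro m ⟨y, hy, hy0, hd⟩ l ⟨y', hy', rfl, hd'⟩
    have hyc := eq_cal hy hy0
    subst hyc
    by_contra hne
    have h2 := hgap (cst .al) cal_mem y' hy' (fun e => hne e.symm)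
    have h3 := h1 m (hd.trans_le (min_le_left _ _))
    rw [hfix] at h3
    have h4 : dist (sec (cst .al)) (sec y') ≤
        dist (flow κ2 1 m) (sec (cst .al)) + dist (flow κ2 1 m) (sec y') :=
      dist_triangle_left _ _ _
    have h5 := hd'.trans_le (min_le_right _ _)
    linarith

lemma R2_nonempty {η : ℝ} (h : Good η) : (R2 η).Nonempty := by
  refine ⟨(sec (cst .be), sec (cst .al)), Or.inl ⟨cst .al, cal_mem, rfl, ?_⟩⟩
  rintro ⟨x, hx, hm⟩
  have h1 : sec (cst .be) ∈ U η .be := sec_mem_U h.pos cbe_mem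
  have h2 : x = .be := h.disj _ _ _ hm h1
  rw [h2] at hx
  exact not_close_al_be hx

end FlowEntropy
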