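import Pool.Agent.Helper98.Flow.Span

open Set Filter Topology
open scoped Manifold ContDiff

set_option linter.unusedSectionVars false

namespace FlowEntropy
open TorusFlow

lemma exists_unif {η : ℝ} (hη : 0 < η) : ∃ J : ℕ, 0 < J ∧ ∀ s : ℝ, |s| ≤ 1 / J → ∀ q : T3,
    dist (flow κ2 s q) q < η := by
  have hc : IsCompact (Icc (-1 : ℝ) 1 ×ˢ (univ : Set T3)) := isCompact_Icc.prod isCompact_univ
  have hu := hc.uniformContinuousOn_of_continuous (flow_continuous κ2).continuousOn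
  obtain ⟨δ, hδ, h⟩ := Metric.uniformContinuousOn_iff.1 hu η hη
  obtain ⟨n, hn⟩ := exists_nat_one_div_lt hδ
  refine ⟨n + 1, Nat.succ_pos _, fun s hs q => ?_⟩
  push_cast at hs
  have h1 : |s| < δ := hs.trans_lt hn
  have h2 : (1 : ℝ) / (n + 1) ≤ 1 := by
    rw [div_le_one (by positivity)]
    linarith [(Nat.cast_nonneg n : (0 : ℝ) ≤ n)]
  have h3 := h (s, q) ⟨abs_le.1 (hs.trans h2), mem_univ _⟩ (0, q)
    ⟨⟨by norm_num, by norm_num⟩, mem_univ _⟩ (by
      rw [Prod.dist_eq, dist_self, Real.dist_eq, sub_zero]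
      exact max_lt h1 hδ)
  simpa [flow_zero] using h3

lemma sec_time {t : ℝ} {p : T2} {y : ℤ → L2} (h : flow κ2 t ((1 : Circle), p) = sec y) :
    ∃ m : ℤ, t = m := by
  have h1 : (1 : Circle) * Circle.exp (2 * Real.pi * t) = 1 := by
    have := congrArg Prod.fst h
    exact this
  obtain ⟨m, hm⟩ := time_int (θ := 1) (s := 0) (by simp) h1
  exact ⟨m, by rw [hm, zero_add]⟩

lemma half_cover {η T : ℝ} {J : ℕ}
    (hu : ∀ s : ℝ, |s| ≤ 1 / J → ∀ q : T3, dist (flow κ2 s q) q < η)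
    {ξ ξ' : ℤ → L2} (hξ' : ξ' ∈ X2)
    (hcl : ∀ j : ℤ, 0 ≤ j → j ≤ ⌊T⌋ → close (ξ' j) (ξ j)) {τ σ : ℝ} (hτ0 : 0 ≤ τ) (hτ1 : τ < 1)
    (hτσ : |τ - σ| ≤ 1 / J) {t : ℝ} (ht : t ∈ Icc 0 T) :
    (flow κ2 t (flow κ2 (-σ) (sec ξ')), flow κ2 t (flow κ2 (-τ) (sec ξ))) ∉ R1 η := by
  rintro ⟨y, hy, h1, h2⟩
  apply h2
  simp only at h1 ⊢
  rw [← flow_add] at h1
  obtain ⟨m, hm⟩ := sec_time h1
  rw [hm, flow_sec2] at h1
  have hyξ := sec_inj h1
  have hm0 : 0 ≤ m := by
    have : (-1 : ℝ) < m := by rw [← hm]; linarith [ht.1]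
    have : (-1 : ℤ) < m := by exact_mod_cast this
    omega
  have hmT : m ≤ ⌊T⌋ := by
    apply Int.le_floor.2
    rw [← hm]; linarith [ht.2]
  have e : flow κ2 t (flow κ2 (-σ) (sec ξ')) = flow κ2 (τ - σ) (sec (shn m ξ')) := by
    rw [← flow_sec2, ← flow_add, ← flow_add]
    congr 1
    rw [← hm]; ring
  rw [e, ← hyξ]
  refine ⟨ξ' m, by simpa [shn] using hcl m hm0 hmT, shn m ξ', shn_mem2 m hξ', ?_, hu _ hτσ _⟩
  simp [shn]

lemma cover_pair {η T : ℝ} {J : ℕ}
    (hu : ∀ s : ℝ, |s| ≤ 1 / J → ∀ q : T3, dist (flow κ2 s q) q < η)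
    {ξ ξ' : ℤ → L2} (hξ : ξ ∈ X2) (hξ' : ξ' ∈ X2)
    (hcl : ∀ j : ℤ, 0 ≤ j → j ≤ ⌊T⌋ → close (ξ' j) (ξ j)) {τ σ : ℝ} (hτ0 : 0 ≤ τ) (hτ1 : τ < 1)
    (hσ0 : 0 ≤ σ) (hσ1 : σ < 1)
    (hτσ : |τ - σ| ≤ 1 / J) {t : ℝ} (ht : t ∈ Icc 0 T) :
    (flow κ2 t (flow κ2 (-σ) (sec ξ')), flow κ2 t (flow κ2 (-τ) (sec ξ))) ∉ R2 η := by
  rintro (h | h)
  · exact half_cover hu hξ' hcl hτ0 hτ1 hτσ ht h
  · refine half_cover hu hξ (fun j h1 h2 => close_symm (hcl j h1 h2)) hσ0 hσ1 ?_ ht h
    rwa [abs_sub_comm]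

/-- the extra centre -/
noncomputable def zz : T3 := ((1 : Circle), ((-1 : Circle), (1 : Circle)))

lemma zz_off (t : ℝ) (y : ℤ → L2) : flow κ2 t zz ≠ sec y := by
  intro h
  obtain ⟨m, hm⟩ := sec_time h
  rw [hm, zz, flow_sec_int, sec] at h
  have h1 : (Fp κ2 ^ m) ((-1 : Circle), (1 : Circle)) = pp y := congrArg Prod.snd h
  have h2 : (Fp κ2 ^ m) (pp (shn (-m) y)) = pp y := by
    rw [Fp_zpow_pp]
    congr 1
    funext n
    simp [shn]
  have h3 := (Fp κ2 ^ m).injective (h2.trans h1.symm)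
  exact not_mem_range_pp _ _ h3

lemma exists_W (K : ℕ) : ∃ W : Finset (ℤ → L2), (∀ y ∈ W, y ∈ X2) ∧
    W.card ≤ 2 + K * (2 * 16 ^ K * 2 ^ (16 ^ K / 4)) ∧
    ∀ ξ ∈ X2, ∃ ξ' ∈ W, ∀ j : ℤ, 0 ≤ j → j < 16 ^ K → close (ξ' j) (ξ j) := by
  classical
  let ext (k : ℕ) (w : Fin (4 * 16 ^ k) → Bool) : ℕ → Bool := fun i =>
    if h : i < 4 * 16 ^ k then w ⟨i, h⟩ else default
  let Wk (k : ℕ) : Finset (ℤ → L2) :=
    (Finset.Ico (-16 ^ K : ℤ) (16 ^ K) ×ˢ (Finset.univ : Finset (Fin (4 * 16 ^ k) → Bool))).image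
      (fun q => emb (shn q.1 (gen k (ext k q.2))))
  have hWk : ∀ k < K, (Wk k).card ≤ 2 * 16 ^ K * 2 ^ (16 ^ K / 4) := by
    intro k hk
    refine Finset.card_image_le.trans ?_
    rw [Finset.card_product, Int.card_Ico, Finset.card_univ, Fintype.card_fun, Fintype.card_bool,
      Fintype.card_fin]
    have e : (16 ^ K - -16 ^ K : ℤ).toNat = 2 * 16 ^ K := by
      rw [show (16 ^ K - -16 ^ K : ℤ) = ((2 * 16 ^ K : ℕ) : ℤ) by push_cast; ring]
      exact Int.toNat_natCast _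
    rw [e]
    apply Nat.mul_le_mul_left
    apply Nat.pow_le_pow_right (by norm_num)
    rw [Nat.le_div_iff_mul_le (by norm_num)]
    calc 4 * 16 ^ k * 4 = 16 ^ (k + 1) := by ring
      _ ≤ 16 ^ K := Nat.pow_le_pow_right (by norm_num) hk
  refine ⟨{cst .al, cst .be} ∪ (Finset.range K).biUnion Wk, ?_, ?_, ?_⟩
  · intro y hy
    rw [Finset.mem_union, Finset.mem_biUnion] at hy
    rcases hy with hy | ⟨k, -, hy⟩
    · rw [Finset.mem_insert, Finset.mem_singleton] at hy
      rcases hy with rfl | rfl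
      · exact cal_mem
      · exact cbe_mem
    · obtain ⟨q, -, rfl⟩ := Finset.mem_image.1 hy
      exact emb_mem (shn_mem _ (gen_mem _ _))
  · refine (Finset.card_union_le _ _).trans ?_
    apply Nat.add_le_add
    · exact Finset.card_le_two
    · have := Finset.card_biUnion_le_card_mul (Finset.range K) Wk _
        (fun k hk => hWk k (Finset.mem_range.1 hk))
      rwa [Finset.card_range] at this
  · intro ξ hξ
    rcases hξ with ⟨y, hy, rfl⟩ | rfl | rfl
    · rcases classify K hy with h1 | h1 | ⟨k, hk, s, hs1, hs2, w, hw⟩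
      · refine ⟨cst .al, Finset.mem_union_left _ (by simp), fun j h0 h2 => ?_⟩
        have h3 := h1 j h0 h2
        simp only [cst, emb]
        generalize y j = l at *
        cases l
        · exact Or.inr (Or.inl trivial)
        · exact Or.inr (Or.inl trivial)
        · exact absurd rfl (h3 _)
      · refine ⟨cst .be, Finset.mem_union_left _ (by simp), fun j h0 h2 => ?_⟩
        have h3 := h1 j h0 h2
        simp only [cst, emb]
        generalize y j = l at *
        cases l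
        · exact Or.inr (Or.inl trivial)
        · exact absurd rfl (h3 _)
        · exact Or.inr (Or.inl trivial)
      · refine ⟨emb (shn s (gen k (ext k (fun i => w i)))), ?_, fun j h0 h2 => ?_⟩
        · apply Finset.mem_union_right
          rw [Finset.mem_biUnion]
          refine ⟨k, Finset.mem_range.2 hk, Finset.mem_image.2 ⟨(s, fun i => w i), ?_, rfl⟩⟩
          rw [Finset.mem_product]
          exact ⟨Finset.mem_Ico.2 ⟨hs1, hs2⟩, Finset.mem_univ _⟩
        · have e : gen k (ext k (fun i => w i)) = gen k w := by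
            apply gen_congr
            intro i hi
            simp only [ext]
            rw [dif_pos hi]
          rw [e]
          apply Or.inl
          simp only [emb, shn]
          rw [hw j h0 h2]
    · exact ⟨cst .al, Finset.mem_union_left _ (by simp), fun j _ _ => close_refl _⟩
    · exact ⟨cst .be, Finset.mem_union_left _ (by simp), fun j _ _ => close_refl _⟩

/-- Spanning in terms of the relation. -/
def FSpan (η T : ℝ) (S : Finset T3) : Prop :=
  ∀ x, ∃ c ∈ S, ∀ t ∈ Icc 0 T, (flow κ2 t c, flow κ2 t x) ∉ R2 η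

theorem span_upper {η : ℝ} {J : ℕ} (hJ : 0 < J)
    (hu : ∀ s : ℝ, |s| ≤ 1 / J → ∀ q : T3, dist (flow κ2 s q) q < η) (K : ℕ) {T : ℝ}
    (hT : ⌊T⌋ + 1 ≤ 16 ^ K) :
    ∃ S : Finset T3, S.card ≤ 1 + J * (2 + K * (2 * 16 ^ K * 2 ^ (16 ^ K / 4))) ∧
      FSpan η T S := by
  classical
  obtain ⟨W, hW1, hW2, hW3⟩ := exists_W K
  let f : ℕ × (ℤ → L2) → T3 := fun q => flow κ2 (-((q.1 : ℝ) / J)) (sec q.2)
  have hJ' : (0 : ℝ) < J := by exact_mod_cast hJ
  refine ⟨insert zz ((Finset.range J ×ˢ W).image f), ?_, ?_⟩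
  · refine (Finset.card_insert_le _ _).trans ?_
    have h1 : ((Finset.range J ×ˢ W).image f).card ≤ J * W.card := by
      refine Finset.card_image_le.trans ?_
      rw [Finset.card_product, Finset.card_range]
    have h2 : J * W.card ≤ J * (2 + K * (2 * 16 ^ K * 2 ^ (16 ^ K / 4))) :=
      Nat.mul_le_mul_left _ hW2
    omega
  · intro x
    by_cases hx : ∃ t ∈ Icc 0 T, ∃ y ∈ X2, flow κ2 t x = sec y
    · obtain ⟨t0, ht0, y, hy, hxy⟩ := hx
      set τ := Int.fract t0 with hτ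
      have hτ0 : 0 ≤ τ := Int.fract_nonneg _
      have hτ1 : τ < 1 := Int.fract_lt_one _
      have hxe : x = flow κ2 (-τ) (sec (shn (-⌊t0⌋) y)) := by
        rw [← flow_sec2, ← flow_add, ← hxy]
        rw [show -τ + ((-⌊t0⌋ : ℤ) : ℝ) = -t0 by rw [hτ, Int.fract]; push_cast; ring]
        rw [flow_neg_flow]
      set ξ := shn (-⌊t0⌋) y
      have hξ : ξ ∈ X2 := shn_mem2 _ hy
      obtain ⟨ξ', hξ'W, hcl⟩ := hW3 ξ hξ
      have hi0 : 0 ≤ ⌊τ * J⌋ := Int.floor_nonneg.2 (by positivity)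
      obtain ⟨i, hi⟩ := Int.eq_ofNat_of_zero_le hi0
      have hi1 : (i : ℝ) ≤ τ * J := by
        have := Int.floor_le (τ * J)
        rw [hi] at this
        exact_mod_cast this
      have hi2 : τ * J < i + 1 := by
        have := Int.lt_floor_add_one (τ * J)
        rw [hi] at this
        exact_mod_cast this
      have hiJ : i < J := by
        have : (i : ℝ) < J := by nlinarith
        exact_mod_cast this
      have hσ1 : (i : ℝ) / J < 1 := by
        rw [div_lt_one hJ']; exact_mod_cast hiJ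
      have hd : |τ - (i : ℝ) / J| ≤ 1 / J := by
        rw [abs_of_nonneg]
        · rw [sub_le_iff_le_add, ← add_div, le_div_iff₀ hJ']
          linarith
        · rw [sub_nonneg, div_le_iff₀ hJ']
          exact hi1
      refine ⟨f (i, ξ'), ?_, fun t ht => ?_⟩
      · apply Finset.mem_insert_of_mem
        apply Finset.mem_image_of_mem
        exact Finset.mem_product.2 ⟨Finset.mem_range.2 hiJ, hξ'W⟩
      · rw [hxe]
        exact cover_pair hu hξ (hW1 _ hξ'W) (fun j h1 h2 => hcl j h1 (by omega)) hτ0 hτ1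
          (by positivity) hσ1 hd ht
    · push Not at hx
      refine ⟨zz, Finset.mem_insert_self _ _, fun t ht => ?_⟩
      rintro (⟨y, hy, h1, -⟩ | ⟨y, hy, h1, -⟩)
      · exact hx t ht y hy h1
      · exact zz_off t y h1

/-- extension of a finite word -/
def exb {N : ℕ} (w : Fin N → Bool) : ℕ → Bool := fun i => if h : i < N then w ⟨i, h⟩ else default

theorem span_lower {η : ℝ} (hη : Good η) (k : ℕ) {T : ℝ} (hT : 9 * 16 ^ k - 1 ≤ T)
    (S : Finset T3) (hS : FSpan η T S) : 2 ^ (4 * 16 ^ k) ≤ S.card := by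
  classical
  have hpow : (0 : ℤ) < 16 ^ k := by positivity
  have h1 : ∀ w : Fin (4 * 16 ^ k) → Bool, ∃ c ∈ S, ∀ t ∈ Icc 0 T,
      (flow κ2 t c, flow κ2 t (sec (emb (gen k (exb w))))) ∉ R2 η := fun w => hS _
  choose c hcS hc using h1
  -- at integer times the centre is in the neighbourhood of the letter
  have hN : ∀ w, ∀ j : ℤ, 0 ≤ j → j < 9 * 16 ^ k →
      flow κ2 j (c w) ∈ NN η (inc (gen k (exb w) j)) := by
    intro w j h0 h2
    have hj : (j : ℝ) ∈ Icc 0 T := by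
      refine ⟨by exact_mod_cast h0, ?_⟩
      have : (j : ℝ) + 1 ≤ 9 * 16 ^ k := by exact_mod_cast (by omega : j + 1 ≤ 9 * 16 ^ k)
      linarith
    have h3 := hc w j hj
    by_contra hcon
    apply h3
    left
    refine ⟨shn j (emb (gen k (exb w))), shn_mem2 j (emb_mem (gen_mem _ _)), ?_, ?_⟩
    · exact flow_sec2 j _
    · simp only [shn, zero_add]
      exact hcon
  -- the constant letter is impossible
  have hal : ∀ w, ∀ i : ℤ, 0 ≤ i → i < 4 * 16 ^ k → flow κ2 i (c w) ∉ U η .al := by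
    intro w i h0 h2 hmem
    have hstep : ∀ d : ℕ, i + d ≤ 5 * 16 ^ k → flow κ2 ((i + d : ℤ) : ℝ) (c w) ∈ U η .al := by
      intro d
      induction d with
      | zero => intro _; simpa using hmem
      | succ d ih =>
        intro hd
        have h4 := ih (by push_cast at hd; omega)
        obtain ⟨l, -, hl⟩ := hN w (i + (d + 1 : ℕ)) (by positivity) (by linarith)
        have h5 : flow κ2 ((i + (d + 1 : ℕ) : ℤ) : ℝ) (c w) =
            flow κ2 1 (flow κ2 ((i + d : ℤ) : ℝ) (c w)) := by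
          rw [← flow_add]
          congr 1
          push_cast; ring
        rw [h5] at hl ⊢
        have h6 := hη.iso _ h4 l hl
        rw [h6] at hl
        exact hl
    obtain ⟨d, hd⟩ := Int.eq_ofNat_of_zero_le (by linarith : 0 ≤ 5 * 16 ^ k - i)
    have h7 := hstep d (by linarith)
    have h8 : i + (d : ℤ) = ((5 * 16 ^ k + 0 : ℕ) : ℤ) := by
      push_cast
      linarith
    rw [h8] at h7
    obtain ⟨l, hl1, hl2⟩ := hN w ((5 * 16 ^ k + 0 : ℕ) : ℤ) (by positivity)
      (by push_cast; linarith)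
    rw [gen_b (exb w) (by positivity : 0 < 4 * 16 ^ k)] at hl1
    exact close_b hl1 (hη.disj _ _ _ hl2 h7)
  have hinj : Function.Injective c := by
    intro w w' hww
    funext i
    have hi2 : ((i : ℕ) : ℤ) < 4 * 16 ^ k := by exact_mod_cast i.2
    have key : ∀ w : Fin (4 * 16 ^ k) → Bool,
        flow κ2 (((i : ℕ) : ℤ) : ℝ) (c w) ∈ U η (.a (w i)) := by
      intro w
      obtain ⟨l, hl1, hl2⟩ := hN w (i : ℕ) (by positivity) (by linarith)
      rw [gen_a (exb w) i.2] at hl1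
      have e : exb w i = w i := by rw [exb, dif_pos i.2]
      rw [e] at hl1
      rcases close_a hl1 with h3 | h3
      · rw [h3] at hl2; exact hl2
      · rw [h3] at hl2
        exact absurd hl2 (hal w _ (by positivity) hi2)
    have k1 := key w
    have k2 := key w'
    rw [← hww] at k2
    have := hη.disj _ _ _ k1 k2
    exact L2.a.inj this
  have h9 := Finset.card_le_card_of_injOn (s := (Finset.univ : Finset (Fin (4 * 16 ^ k) → Bool)))
    (t := S) c (fun w _ => hcS w) (hinj.injOn)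
  rwa [Finset.card_univ, Fintype.card_fun, Fintype.card_bool, Fintype.card_fin] at h9

end FlowEntropy
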