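import Pool.Agent.Helper98.Flow.Span2
import Pool.Agent.Helper98.Flow.Gap

open Set Filter Topology
open scoped Manifold ContDiff

namespace FlowEntropy
open TorusFlow

section
variable {D : T3 → T3 → ℝ} {η : ℝ} (hDc : Continuous (fun p : T3 × T3 => D p.1 p.2))
  (hDR : ∀ x y, 1 ≤ D x y ↔ (x, y) ∈ R2 η)
include hDc hDR

lemma mem_spanSizes {T : ℝ} (hT : 0 ≤ T) (n : ℕ) :
    n ∈ spanSizes (flow κ2) D 1 T ↔ ∃ S : Finset T3, S.card = n ∧ FSpan η T S := by
  have h : ∀ x y, flowDist (flow κ2) D T x y < 1 ↔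
      ∀ t ∈ Icc 0 T, (flow κ2 t x, flow κ2 t y) ∉ R2 η := by
    intro x y
    rw [← not_le, one_le_flowDist (flow_continuous_left κ2) hDc hT]
    simp only [hDR]
    push Not
    rfl
  unfold spanSizes FSpan
  change (∃ S : Finset T3, S.card = n ∧ ∀ x, ∃ y ∈ S, flowDist (flow κ2) D T y x < 1) ↔ _
  simp only [h]

end

lemma span_poly_bound (J K : ℕ) :
    Real.log ((1 + J * (2 + K * (2 * 16 ^ K * 2 ^ (16 ^ K / 4))) : ℕ) : ℝ) ≤
    Real.log (1 + 4 * J) + (2 : ℕ) * Real.log (16 ^ K) + Real.log 2 / 4 * 16 ^ K := by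
  have hK : (K : ℝ) ≤ 16 ^ K := by
    have : K < 16 ^ K := Nat.lt_pow_self (by norm_num)
    exact_mod_cast this.le
  have h1 : (1 : ℝ) ≤ 16 ^ K := one_le_pow₀ (by norm_num)
  have h2 : (1 : ℝ) ≤ 2 ^ (16 ^ K / 4) := one_le_pow₀ (by norm_num)
  have hJ : (0 : ℝ) ≤ J := Nat.cast_nonneg _
  have hlog2 : 0 ≤ Real.log 2 := Real.log_nonneg (by norm_num)
  push_cast
  have h3 : (1 + (J : ℝ) * (2 + K * (2 * 16 ^ K * 2 ^ (16 ^ K / 4)))) ≤
      (1 + 4 * J) * (16 ^ K) ^ 2 * 2 ^ (16 ^ K / 4) := by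
    set n : ℝ := 16 ^ K
    set m : ℝ := 2 ^ (16 ^ K / 4)
    have a1 : (1 : ℝ) ≤ n ^ 2 * m := by nlinarith [mul_nonneg (by linarith : (0 : ℝ) ≤ n - 1) (by linarith : (0 : ℝ) ≤ m - 1)]
    have a2 : (K : ℝ) * (2 * n * m) ≤ 2 * (n ^ 2 * m) := by
      have : (K : ℝ) * (2 * n * m) ≤ n * (2 * n * m) := by gcongr
      nlinarith
    have a3 : (2 + (K : ℝ) * (2 * n * m)) ≤ 4 * (n ^ 2 * m) := by linarith
    have a4 : (J : ℝ) * (2 + (K : ℝ) * (2 * n * m)) ≤ J * (4 * (n ^ 2 * m)) := by gcongr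
    nlinarith
  refine (Real.log_le_log (by positivity) h3).trans ?_
  have e1 : Real.log (((16 : ℝ) ^ K) ^ 2) = 2 * Real.log (16 ^ K) := by
    rw [Real.log_pow]; push_cast; ring
  have e2 : Real.log ((2 : ℝ) ^ (16 ^ K / 4)) ≤ Real.log 2 / 4 * 16 ^ K := by
    rw [Real.log_pow]
    have : ((16 ^ K / 4 : ℕ) : ℝ) ≤ 16 ^ K / 4 := by
      refine Nat.cast_div_le.trans ?_
      push_cast; rfl
    calc ((16 ^ K / 4 : ℕ) : ℝ) * Real.log 2 ≤ (16 ^ K / 4) * Real.log 2 := by gcongr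
      _ = _ := by ring
  rw [Real.log_mul (by positivity) (by positivity), Real.log_mul (by positivity) (by positivity),
    e1]
  push_cast
  linarith

section
variable {D : T3 → T3 → ℝ} {η : ℝ} (hDc : Continuous (fun p : T3 × T3 => D p.1 p.2))
  (hDR : ∀ x y, 1 ≤ D x y ↔ (x, y) ∈ R2 η) (hη : Good η)
include hDc hDR hη

lemma span_mem {T : ℝ} (hT : 0 ≤ T) :
    span (flow κ2) D 1 T ∈ spanSizes (flow κ2) D 1 T := by
  apply Nat.sInf_mem
  obtain ⟨J, hJ, hu⟩ := exists_unif hη.pos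
  obtain ⟨K, hK⟩ : ∃ K : ℕ, ⌊T⌋ + 1 ≤ 16 ^ K := by
    obtain ⟨K, hK⟩ := pow_unbounded_of_one_lt (⌊T⌋ + 1) (by norm_num : (1 : ℤ) < 16)
    exact ⟨K, hK.le⟩
  obtain ⟨S, -, hS⟩ := span_upper hJ hu K hK
  exact ⟨S.card, (mem_spanSizes hDc hDR hT _).2 ⟨S, rfl, hS⟩⟩

theorem span_gap :
    liminf (fun T : ℝ => ((Real.log (span (flow κ2) D 1 T) / T : ℝ) : EReal)) atTop <
      limsup (fun T : ℝ => ((Real.log (span (flow κ2) D 1 T) / T : ℝ) : EReal)) atTop := by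
  have hlog2 : 0 < Real.log 2 := Real.log_pos (by norm_num)
  obtain ⟨c1, hc1, hc2⟩ := exists_between
    (by linarith : Real.log 2 / 4 < 4 / 9 * Real.log 2)
  obtain ⟨J, hJ, hu⟩ := exists_unif hη.pos
  refine gap_of_frequently (f := fun T => Real.log (span (flow κ2) D 1 T) / T) hc2 ?_ ?_
  · have h1 : Tendsto (fun K : ℕ => (16 : ℝ) ^ K - 1) atTop atTop :=
      tendsto_atTop_add_const_right _ _ (tendsto_pow_atTop_atTop_of_one_lt (by norm_num))
    apply h1.frequently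
    apply Eventually.frequently
    have h2 := eventually_rate (s := fun K => 1 + J * (2 + K * (2 * 16 ^ K * 2 ^ (16 ^ K / 4))))
      (by positivity) hc1 (Real.log (1 + 4 * J)) (p := 2) (span_poly_bound J)
    filter_upwards [h2] with K hK
    refine le_trans ?_ hK
    have h3 : (1 : ℝ) ≤ 16 ^ K := one_le_pow₀ (by norm_num)
    have hT : (0 : ℝ) ≤ 16 ^ K - 1 := by linarith
    rcases hT.eq_or_lt with h4 | h4
    · rw [← h4]; simp
    · refine div_le_div_of_nonneg_right ?_ h4.le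
      have e : ⌊(16 : ℝ) ^ K - 1⌋ + 1 ≤ 16 ^ K := by
        have : ((16 : ℝ) ^ K - 1) = (((16 ^ K - 1 : ℤ)) : ℝ) := by push_cast; rfl
        rw [this, Int.floor_intCast]
        linarith
      obtain ⟨S, hS1, hS2⟩ := span_upper hJ hu K e
      have h5 : span (flow κ2) D 1 (16 ^ K - 1) ≤
          1 + J * (2 + K * (2 * 16 ^ K * 2 ^ (16 ^ K / 4))) :=
        (Nat.sInf_le ((mem_spanSizes hDc hDR hT _).2 ⟨S, rfl, hS2⟩)).trans hS1
      rcases Nat.eq_zero_or_pos (span (flow κ2) D 1 (16 ^ K - 1)) with h6 | h6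
      · rw [h6]
        simp only [Nat.cast_zero, Real.log_zero]
        apply Real.log_nonneg
        have h7 : 1 ≤ 1 + J * (2 + K * (2 * 16 ^ K * 2 ^ (16 ^ K / 4))) :=
          Nat.le_add_right _ _
        exact_mod_cast h7
      · apply Real.log_le_log (by exact_mod_cast h6)
        exact_mod_cast h5
  · have h1 : Tendsto (fun K : ℕ => 9 * (16 : ℝ) ^ K - 1) atTop atTop :=
      tendsto_atTop_add_const_right _ _
        (Tendsto.const_mul_atTop (by norm_num) (tendsto_pow_atTop_atTop_of_one_lt (by norm_num)))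
    apply h1.frequently
    apply Eventually.frequently
    filter_upwards with K
    have h3 : (1 : ℝ) ≤ 16 ^ K := one_le_pow₀ (by norm_num)
    have hT : (0 : ℝ) ≤ 9 * 16 ^ K - 1 := by linarith
    rw [le_div_iff₀ (by linarith)]
    obtain ⟨S, hS1, hS2⟩ := (mem_spanSizes hDc hDR hT _).1 (span_mem hDc hDR hη hT)
    have h5 := span_lower hη K le_rfl S hS2
    rw [hS1] at h5
    have h4 : Real.log ((2 : ℝ) ^ (4 * 16 ^ K)) ≤
        Real.log (span (flow κ2) D 1 (9 * 16 ^ K - 1)) := by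
      apply Real.log_le_log (by positivity)
      exact_mod_cast h5
    refine le_trans ?_ h4
    rw [Real.log_pow]
    push_cast
    nlinarith

end

theorem span_main : ∃ (φ : ℝ → Torus3 → Torus3) (D : Torus3 → Torus3 → ℝ),
    SmoothFlow ((𝓡 1).prod ((𝓡 1).prod (𝓡 1))) φ ∧ CompatibleMetric Torus3 D ∧
    (∀ T > 0, IsLeast (spanSizes φ D 1 T) (span φ D 1 T)) ∧
    liminf (fun T : ℝ => ((Real.log (span φ D 1 T) / T : ℝ) : EReal)) atTop <
      limsup (fun T : ℝ => ((Real.log (span φ D 1 T) / T : ℝ) : EReal)) atTop := by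
  obtain ⟨η, hη⟩ := exists_good
  obtain ⟨D, h1, h2, h3⟩ := exists_metric (M := Torus3) (isClosed_R2 η) (R2_symm η)
    (R2_nonempty hη) (R2_irrefl hη.pos)
  exact ⟨flow κ2, D, flow_smoothFlow _, h1, fun T hT => ⟨span_mem h2 h3 hη hT.le,
    fun n hn => Nat.sInf_le hn⟩, span_gap h2 h3 hη⟩

end FlowEntropy
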